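import Pool.Agent.Helper73.SNC.PerGen
import Pool.Agent.Helper91.CYC.PieceA

/-!
# A valuation subring of `ℂ` above 2

* `exists_V`: there is a valuation subring `V` of `ℂ` in which 2 is not a unit.
* `isAlgClosed_res`, `charP_res`: its residue field is algebraically closed of characteristic 2.
* `psiV`: the roots of unity in `V`.
* `rel_quot`: the relations `Rel` over every quotient of `V`.
* `first_order`: the first order ring.
-/

set_option autoImplicit false

namespace Pool.Agent.Helper73.SNC

open Finset Polynomial Pool.Agent.Helper10.CYC IsLocalRing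

lemma exists_V : ∃ V : ValuationSubring ℂ, ¬ IsUnit (2 : V) := by
  have h : (Ideal.span {(2 : (integralClosure ℤ ℂ).toSubring)}) ≠ ⊤ := by
    rw [Ne, Ideal.span_singleton_eq_top]
    exact two_not_unit
  obtain ⟨V, _, h2⟩ := Ideal.image_subset_nonunits_valuationSubring _ h
  refine ⟨V, ?_⟩
  have h3 : (2 : ℂ) ∈ V.nonunits := h2 ⟨2, Ideal.mem_span_singleton_self _, rfl⟩
  have h4 : ((2 : V) : ℂ) ∈ V.nonunits := h3
  rw [ValuationSubring.coe_mem_nonunits_iff] at h4
  exact h4

section V

variable (V : ValuationSubring ℂ)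

lemma mem_V_of_isIntegral {z : ℂ} (hz : IsIntegral ℤ z) : z ∈ V := by
  have h1 : IsIntegral V z := hz.tower_top
  obtain ⟨y, hy⟩ := IsIntegrallyClosed.isIntegral_iff.1 h1
  rw [← hy]
  exact y.2

/-- Every monic polynomial of positive degree over `V` has a root. -/
lemma exists_root_V (P : V[X]) (hP : P.Monic) (hd : P.natDegree ≠ 0) : ∃ z : V, P.eval z = 0 := by
  have hd' : (P.map (algebraMap V ℂ)).degree ≠ 0 := by
    rw [hP.degree_map, Polynomial.degree_eq_natDegree hP.ne_zero]
    exact_mod_cast hd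
  obtain ⟨z, hz⟩ := IsAlgClosed.exists_root _ hd'
  have hz' : Polynomial.eval₂ (algebraMap V ℂ) z P = 0 := by
    rw [← Polynomial.eval_map]; exact hz
  have h1 : IsIntegral V z := ⟨P, hP, hz'⟩
  obtain ⟨y, rfl⟩ := IsIntegrallyClosed.isIntegral_iff.1 h1
  refine ⟨y, ?_⟩
  rw [Polynomial.eval₂_at_apply] at hz'
  exact (map_eq_zero_iff _ (FaithfulSMul.algebraMap_injective V ℂ)).1 hz'

instance isAlgClosed_res : IsAlgClosed (ResidueField V) := by
  refine IsAlgClosed.of_exists_root _ (fun p hp hirr => ?_)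
  have hl : p ∈ Polynomial.lifts (residue V) := by
    rw [Polynomial.mem_lifts]
    exact Polynomial.map_surjective _ IsLocalRing.residue_surjective p
  obtain ⟨P, hPp, hPd, hPm⟩ := Polynomial.lifts_and_natDegree_eq_and_monic hl hp
  obtain ⟨z, hz⟩ := exists_root_V V P hPm (by rw [hPd]; exact hirr.natDegree_pos.ne')
  refine ⟨residue V z, ?_⟩
  rw [← hPp, Polynomial.eval_map, Polynomial.eval₂_at_apply, hz, map_zero]

lemma charP_res (h2 : ¬ IsUnit (2 : V)) : CharP (ResidueField V) 2 := by
  refine CharTwo.of_one_ne_zero_of_two_eq_zero one_ne_zero ?_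
  have : (2 : ResidueField V) = residue V 2 := by rw [map_ofNat]
  rw [this, IsLocalRing.residue_eq_zero_iff, IsLocalRing.mem_maximalIdeal]
  exact h2

/-- The characters with values in `V`. -/
noncomputable def psiV {n : ℕ} [NeZero n] : AddChar (ZMod n) V where
  toFun a := ⟨chi a, mem_V_of_isIntegral V (isIntegral_chi a)⟩
  map_zero_eq_one' := Subtype.ext chi_zero
  map_add_eq_mul' a b := Subtype.ext (chi_add a b)

@[simp] lemma coe_psiV {n : ℕ} [NeZero n] (a : ZMod n) : ((psiV V a : V) : ℂ) = chi a := rfl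

lemma psiV_inj {n : ℕ} [NeZero n] : Function.Injective (psiV V : ZMod n → V) := fun _ _ h =>
  chi_inj (congrArg (fun z : V => (z : ℂ)) h)

lemma isUnit_psiV {n : ℕ} [NeZero n] (a : ZMod n) : IsUnit (psiV V a) := by
  refine IsUnit.of_mul_eq_one (psiV V (-a)) ?_
  rw [← AddChar.map_add_eq_mul, add_neg_cancel, AddChar.map_zero_eq_one]

lemma es_psiV {n : ℕ} [NeZero n] {k : ℕ} (a : Fin k → ZMod n) (j : ℕ) :
    ((SNC.es (fun i => psiV V (a i)) j : V) : ℂ) = SNC.es (fun i => chi (a i)) j := by
  have h : algebraMap V ℂ (SNC.es (fun i => psiV V (a i)) j) = SNC.es (fun i => chi (a i)) j := by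
    rw [SNC.es, SNC.es, map_sum]
    refine Finset.sum_congr rfl (fun S _ => ?_)
    rw [map_prod]
    rfl
  exact h

end V

/-! ### The relations over a domain and its quotients -/

/-- The relation over a domain. -/
lemma rel_dom {R : Type} [CommRing R] [IsDomain R] {k b : ℕ} (u : Fin k → ℕ) (x : Fin k → R)
    (hx : Function.Injective x)
    (hW : ∀ σ : Equiv.Perm (Fin k),
      ∑ s ∈ univ.filter (fun s : Equiv.Perm (Fin k) => Good k b u s),
        ∏ i, x (σ i) ^ (s i : ℕ) = 0)
    (G : Fin k → R[X]) :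
    ∑ s ∈ univ.filter (fun s : Equiv.Perm (Fin k) => Good k b u s),
      dd (∏ i, (X - C (x i))) (fun j => G j * X ^ ((s j : Fin k) : ℕ)) = 0 := by
  have hV : (Matrix.vandermonde x).det ≠ 0 := Matrix.det_vandermonde_ne_zero_iff.2 hx
  have key : (Matrix.vandermonde x).det *
      ∑ s ∈ univ.filter (fun s : Equiv.Perm (Fin k) => Good k b u s),
        dd (∏ i, (X - C (x i))) (fun j => G j * X ^ ((s j : Fin k) : ℕ)) = 0 := by
    rw [Finset.mul_sum]
    have e1 : ∀ s ∈ univ.filter (fun s : Equiv.Perm (Fin k) => Good k b u s),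
        (Matrix.vandermonde x).det *
          dd (∏ i, (X - C (x i))) (fun j => G j * X ^ ((s j : Fin k) : ℕ))
        = ∑ σ : Equiv.Perm (Fin k), ((Equiv.Perm.sign σ : ℤ) : R) *
            ((∏ i, (G i).eval (x (σ i))) * ∏ i, x (σ i) ^ (s i : ℕ)) := by
      intro s _
      rw [← Helper91.CYC.st_a2 R k x (fun j => G j * X ^ ((s j : Fin k) : ℕ)), Matrix.det_apply']
      refine Finset.sum_congr rfl (fun σ _ => ?_)
      rw [← Finset.prod_mul_distrib]
      congr 1
      refine Finset.prod_congr rfl (fun i _ => ?_)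
      simp
    rw [Finset.sum_congr rfl e1, Finset.sum_comm]
    refine Finset.sum_eq_zero (fun σ _ => ?_)
    rw [← Finset.mul_sum, ← Finset.mul_sum, hW σ, mul_zero, mul_zero]
  exact (mul_eq_zero.1 key).resolve_left hV

/-- The relation over a quotient of a domain. -/
theorem rel_quot {R S : Type} [CommRing R] [IsDomain R] [CommRing S] (φ : R →+* S)
    (hφ : Function.Surjective φ) {k b : ℕ} (u : Fin k → ℕ) (x : Fin k → R)
    (hx : Function.Injective x)
    (hW : ∀ σ : Equiv.Perm (Fin k),
      ∑ s ∈ univ.filter (fun s : Equiv.Perm (Fin k) => Good k b u s),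
        ∏ i, x (σ i) ^ (s i : ℕ) = 0) : Rel (∏ i, (X - C (φ (x i)))) b u := by
  intro g
  have hg : ∀ j, ∃ G : R[X], G.map φ = g j := fun j => Polynomial.map_surjective _ hφ (g j)
  choose G hG using hg
  have h3 := congrArg φ (rel_dom u x hx hW G)
  rw [map_zero, map_sum] at h3
  rw [← h3]
  refine Finset.sum_congr rfl (fun s _ => ?_)
  rw [Helper91.CYC.st_a1 R S φ k _ (monic_prod_of_monic _ _ fun i _ => monic_X_sub_C _)]
  congr 1
  · rw [Polynomial.map_prod]
    refine Finset.prod_congr rfl (fun i _ => ?_)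
    simp
  · funext j
    rw [Polynomial.map_mul, hG, Polynomial.map_pow, Polynomial.map_X]

/-- The relation over a quotient of `V`, from the complex relations at all orderings. -/
theorem rel_quot_V (V : ValuationSubring ℂ) {S : Type} [CommRing S] (φ : V →+* S)
    (hφ : Function.Surjective φ) {k b : ℕ} (u : Fin k → ℕ) (x : Fin k → V)
    (hx : Function.Injective x)
    (hW : ∀ σ : Equiv.Perm (Fin k), W b (fun i => ((x (σ i) : V) : ℂ)) u = 0) :
    Rel (∏ i, (X - C (φ (x i)))) b u := by
  refine rel_quot φ hφ u x hx (fun σ => ?_)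
  apply FaithfulSMul.algebraMap_injective V ℂ
  rw [map_zero, map_sum, ← hW σ, W]
  refine Finset.sum_congr rfl (fun s _ => ?_)
  rw [map_prod]
  refine Finset.prod_congr rfl (fun i _ => ?_)
  rw [map_pow]
  rfl

/-! ### The first order ring -/

/-- In a valuation ring one member of a finite non-empty family divides all others. -/
lemma exists_dvd_all {R ι : Type*} [CommRing R] [IsDomain R] [ValuationRing R] (s : Finset ι)
    (hs : s.Nonempty) (e : ι → R) : ∃ i ∈ s, ∀ j ∈ s, e i ∣ e j := by
  classical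
  induction hs using Finset.Nonempty.cons_induction with
  | singleton i => exact ⟨i, by simp, by simp⟩
  | cons a s ha hs ih =>
    obtain ⟨i, hi, h⟩ := ih
    rcases ValuationRing.dvd_total (e a) (e i) with h1 | h1
    · refine ⟨a, by simp, ?_⟩
      intro j hj
      rcases Finset.mem_cons.1 hj with rfl | hj
      · exact dvd_rfl
      · exact h1.trans (h j hj)
    · refine ⟨i, Finset.mem_cons_of_mem hi, ?_⟩
      intro j hj
      rcases Finset.mem_cons.1 hj with rfl | hj
      · exact h1
      · exact h j hj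

/-- **First order ring.** If not all `e j` with `j` odd are divisible by 2, then over a suitable
quotient `Lam` of `R` of characteristic 2 they are all multiples of one element `α` with
`α * φ x = 0` exactly for `x` in the maximal ideal. -/
theorem first_order {R : Type} [CommRing R] [IsDomain R] [ValuationRing R] (k : ℕ) (e : ℕ → R)
    (hk : ∀ j, k < j → e j = 0) (hno : ¬ ∀ j, Odd j → (2 : R) ∣ e j) :
    ∃ (Lam : Type) (_ : CommRing Lam) (_ : CharP Lam 2) (φ : R →+* Lam) (α : Lam) (g : ℕ → R)
      (j₀ : ℕ), Function.Surjective φ ∧ (∀ x : R, α * φ x = 0 ↔ x ∈ maximalIdeal R) ∧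
      Odd j₀ ∧ j₀ ≤ k ∧ g j₀ = 1 ∧ (∀ j, k < j → g j = 0) ∧
      (∀ j, Odd j → φ (e j) = α * φ (g j)) ∧
      ((∀ j, Odd j → e j ∈ maximalIdeal R) → α * α = 0) := by
  classical
  push Not at hno
  obtain ⟨j1, hj1, hj1'⟩ := hno
  set s : Finset ℕ := (Finset.range (k + 1)).filter (fun j => Odd j) with hs
  have hj1k : j1 ≤ k := by
    by_contra hcon
    push Not at hcon
    rw [hk j1 hcon] at hj1'
    exact hj1' (dvd_zero _)
  have hj1s : j1 ∈ s := by
    rw [hs, Finset.mem_filter, Finset.mem_range]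
    exact ⟨by omega, hj1⟩
  obtain ⟨j₀, hj₀, hall⟩ := exists_dvd_all s ⟨j1, hj1s⟩ e
  set c : R := e j₀ with hc
  rw [hs, Finset.mem_filter, Finset.mem_range] at hj₀
  have h2c : ¬ (2 : R) ∣ c := fun h => hj1' (h.trans (hall j1 hj1s))
  have hc0 : c ≠ 0 := by
    intro h
    exact h2c (h ▸ dvd_zero _)
  have hdiv : ∀ j, Odd j → ∃ w, e j = c * w := by
    intro j hj
    by_cases hjk : j ≤ k
    · exact hall j (by rw [hs, Finset.mem_filter, Finset.mem_range]; exact ⟨by omega, hj⟩)
    · exact ⟨0, by rw [hk j (by omega), mul_zero]⟩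
  -- 2 is a multiple of `c` with non-unit quotient
  obtain ⟨t, ht⟩ : c ∣ 2 := by
    rcases ValuationRing.dvd_total (2 : R) c with h | h
    · exact absurd h h2c
    · exact h
  have htm : t ∈ maximalIdeal R := by
    rw [mem_maximalIdeal]
    intro hu
    apply h2c
    obtain ⟨t', ht'⟩ := hu.exists_right_inv
    exact ⟨t', by rw [ht, mul_assoc, ht', mul_one]⟩
  set I : Ideal R := Ideal.span {c} * maximalIdeal R with hI
  have hmemI : ∀ x, x ∈ I ↔ ∃ z ∈ maximalIdeal R, c * z = x := fun x =>
    Ideal.mem_span_singleton_mul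
  have hcx : ∀ x : R, c * x ∈ I ↔ x ∈ maximalIdeal R := by
    intro x
    rw [hmemI]
    constructor
    · rintro ⟨z, hz, hzx⟩
      rw [← mul_left_cancel₀ hc0 hzx]
      exact hz
    · intro hx
      exact ⟨x, hx, rfl⟩
  have hIm : I ≤ maximalIdeal R := Ideal.mul_le_right
  have h2I : (2 : R) ∈ I := by rw [ht, hcx]; exact htm
  have h1I : (1 : R) ∉ I := by
    intro h
    exact (Ideal.ne_top_iff_one _).1 (IsLocalRing.maximalIdeal.isMaximal R).ne_top (hIm h)
  have hchar : CharP (R ⧸ I) 2 := by
    refine CharTwo.of_one_ne_zero_of_two_eq_zero ?_ ?_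
    · rw [← map_one (Ideal.Quotient.mk I), Ne, Ideal.Quotient.eq_zero_iff_mem]
      exact h1I
    · have : (2 : R ⧸ I) = Ideal.Quotient.mk I 2 := by rw [map_ofNat]
      rw [this, Ideal.Quotient.eq_zero_iff_mem]
      exact h2I
  let g : ℕ → R := fun j => if j = j₀ then 1 else if h : Odd j ∧ j ≤ k then (hdiv j h.1).choose
    else 0
  have hg : ∀ j, Odd j → e j = c * g j := by
    intro j hj
    by_cases h0 : j = j₀
    · subst h0
      simp only [g, if_true, mul_one, hc]
    · by_cases hjk : j ≤ k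
      · simp only [g, if_neg h0, dif_pos (⟨hj, hjk⟩ : Odd j ∧ j ≤ k)]
        exact (hdiv j hj).choose_spec
      · simp only [g, if_neg h0, dif_neg (fun h : Odd j ∧ j ≤ k => hjk h.2)]
        rw [hk j (by omega), mul_zero]
  refine ⟨R ⧸ I, inferInstance, hchar, Ideal.Quotient.mk I, Ideal.Quotient.mk I c, g, j₀,
    Ideal.Quotient.mk_surjective, ?_, hj₀.2, by omega, ?_, ?_, ?_, ?_⟩
  · intro x
    rw [← map_mul, Ideal.Quotient.eq_zero_iff_mem]
    exact hcx x
  · simp only [g, if_pos]
  · intro j hj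
    simp only [g]
    rw [if_neg (by omega), dif_neg (fun h : Odd j ∧ j ≤ k => by omega)]
  · intro j hj
    rw [← map_mul, ← hg j hj]
  · intro hm
    rw [← map_mul, Ideal.Quotient.eq_zero_iff_mem, hcx]
    exact hm j₀ hj₀.2

/-- Even and odd part of a monic polynomial of even degree. -/
lemma even_odd_parts {R : Type*} [CommRing R] [Nontrivial R] {r : ℕ} (f : R[X]) (hf : f.Monic)
    (hd : f.natDegree = 2 * r) (α : R) (g : ℕ → R)
    (h : ∀ i, i < r → f.coeff (2 * i + 1) = α * g i) :
    ∃ S : R[X], S.Monic ∧ S.natDegree = r ∧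
      f = Polynomial.expand R 2 S + C α * X * Polynomial.expand R 2 (∑ i ∈ range r, C (g i) * X ^ i) := by
  classical
  set S : R[X] := X ^ r + ∑ i ∈ range r, C (f.coeff (2 * i)) * X ^ i with hS
  have hdeg : (∑ i ∈ range r, C (f.coeff (2 * i)) * X ^ i : R[X]).degree < (r : WithBot ℕ) := by
    refine Polynomial.mem_degreeLT.1 (Submodule.sum_mem _ (fun i hi => ?_))
    refine Polynomial.mem_degreeLT.2
      (lt_of_le_of_lt (Polynomial.degree_C_mul_X_pow_le _ _) ?_)
    exact_mod_cast Finset.mem_range.1 hi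
  have hSm : S.Monic := Polynomial.monic_X_pow_add hdeg
  have hSd : S.natDegree = r := by
    apply Polynomial.natDegree_eq_of_degree_eq_some
    rw [hS, Polynomial.degree_add_eq_left_of_degree_lt (by rw [Polynomial.degree_X_pow]; exact hdeg),
      Polynomial.degree_X_pow]
  refine ⟨S, hSm, hSd, ?_⟩
  ext j
  have hSc : ∀ i, S.coeff i = if i = r then 1 else if i < r then f.coeff (2 * i) else 0 := by
    intro i
    rw [hS, Polynomial.coeff_add, Polynomial.coeff_X_pow, Polynomial.finsetSum_coeff]
    simp only [Polynomial.coeff_C_mul, Polynomial.coeff_X_pow, mul_ite, mul_one, mul_zero]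
    rw [Finset.sum_ite_eq]
    simp only [Finset.mem_range]
    by_cases h1 : i = r
    · simp [h1]
    · by_cases h2 : i < r <;> simp [h1, h2]
  have hGc : ∀ i, (∑ i ∈ range r, C (g i) * X ^ i : R[X]).coeff i = if i < r then g i else 0 := by
    intro i
    rw [Polynomial.finsetSum_coeff]
    simp only [Polynomial.coeff_C_mul, Polynomial.coeff_X_pow, mul_ite, mul_one, mul_zero]
    rw [Finset.sum_ite_eq]
    simp only [Finset.mem_range]
  rw [Polynomial.coeff_add, mul_assoc, Polynomial.coeff_C_mul, Polynomial.coeff_expand (by norm_num)]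
  rcases Nat.even_or_odd' j with ⟨i, rfl | rfl⟩
  · have h1 : (X * Polynomial.expand R 2 (∑ i ∈ range r, C (g i) * X ^ i)).coeff (2 * i) = 0 := by
      rcases i with _ | i
      · simp
      · have : 2 * (i + 1) = (2 * i + 1) + 1 := by ring
        rw [this, Polynomial.coeff_X_mul, Polynomial.coeff_expand (by norm_num), if_neg (by omega)]
    rw [h1, mul_zero, add_zero, if_pos (by omega), Nat.mul_div_cancel_left _ (by norm_num), hSc]
    rcases lt_trichotomy i r with h2 | h2 | h2
    · rw [if_neg h2.ne, if_pos h2]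
    · rw [if_pos h2, h2, ← hd]
      exact hf
    · rw [if_neg h2.ne', if_neg (by omega)]
      exact Polynomial.coeff_eq_zero_of_natDegree_lt (by omega)
  · rw [if_neg (by omega), zero_add, Polynomial.coeff_X_mul,
      Polynomial.coeff_expand (by norm_num), if_pos (by omega),
      Nat.mul_div_cancel_left _ (by norm_num), hGc]
    by_cases h2 : i < r
    · rw [if_pos h2, h i h2]
    · rw [if_neg h2, mul_zero]
      exact Polynomial.coeff_eq_zero_of_natDegree_lt (by omega)

end Pool.Agent.Helper73.SNC
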