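import Mathlib
import Pool.Agent.Helper7.SN.Base

/-!
# Cyclic tables: from `ZMod n` to roots of unity in `ℂ`

* `chi` is the standard embedding of `ZMod n` in `ℂ`.
* `es x j` is the `j`-th elementary symmetric function of a finite family `x`.
* `not_tr_det`: no transversal means that all Vandermonde determinants vanish.
* `es_compl`: complex conjugation exchanges `es x j` and `es x (k - j)`.
* `IsCos k A`: `A` is a coset of the subgroup of all elements killed by `k`.
* `isCos_of_es`: if all middle elementary symmetric functions vanish then `A` is such a coset.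
-/

set_option autoImplicit false
set_option linter.unusedSectionVars false

namespace Pool.Agent.Helper73.SNC

open Finset Pool.Agent.Helper7.SN
open scoped ComplexConjugate

/-! ### The embedding -/

section Chi

variable {n : ℕ} [NeZero n]

/-- The standard embedding of `ZMod n` in the `n`-th roots of unity. -/
noncomputable def chi (a : ZMod n) : ℂ := ZMod.stdAddChar a

lemma chi_add (a b : ZMod n) : chi (a + b) = chi a * chi b :=
  AddChar.map_add_eq_mul _ a b

lemma chi_zero : chi (0 : ZMod n) = 1 := AddChar.map_zero_eq_one _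

lemma chi_inj : Function.Injective (chi : ZMod n → ℂ) := ZMod.injective_stdAddChar

lemma chi_norm (a : ZMod n) : ‖chi a‖ = 1 := by
  rw [chi, ZMod.stdAddChar_apply]
  exact Circle.norm_coe _

lemma chi_ne_zero (a : ZMod n) : chi a ≠ 0 := by
  intro h
  have := chi_norm a
  rw [h] at this
  simp at this

lemma chi_mul_neg (a : ZMod n) : chi a * chi (-a) = 1 := by
  rw [← chi_add, add_neg_cancel, chi_zero]

lemma chi_neg (a : ZMod n) : chi (-a) = (chi a)⁻¹ :=
  eq_inv_of_mul_eq_one_right (chi_mul_neg a)

lemma chi_sub (a b : ZMod n) : chi (a - b) = chi a / chi b := by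
  rw [sub_eq_add_neg, chi_add, chi_neg, div_eq_mul_inv]

lemma chi_nsmul (m : ℕ) (a : ZMod n) : chi (m • a) = chi a ^ m :=
  AddChar.map_nsmul_eq_pow _ m a

lemma chi_pow_card (a : ZMod n) : chi a ^ n = 1 := by
  rw [← chi_nsmul]
  have : n • a = 0 := by
    rw [nsmul_eq_mul, ZMod.natCast_self, zero_mul]
  rw [this, chi_zero]

lemma conj_chi (a : ZMod n) : conj (chi a) = chi (-a) := by
  rw [chi_neg, Complex.inv_def, Complex.normSq_eq_norm_sq, chi_norm]
  simp

end Chi

/-! ### Elementary symmetric functions of a family -/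

section Es

variable {ι : Type*} [Fintype ι] {K : Type*}

/-- The `j`-th elementary symmetric function of a finite family. -/
def es {ι : Type*} [Fintype ι] {K : Type*} [CommSemiring K] (x : ι → K) (j : ℕ) : K :=
  ∑ S ∈ (univ : Finset ι).powersetCard j, ∏ i ∈ S, x i

lemma es_eq_esymm [CommSemiring K] (x : ι → K) (j : ℕ) :
    es x j = ((univ : Finset ι).val.map x).esymm j := by
  rw [Finset.esymm_map_val]
  rfl

lemma es_eq_aeval [CommRing K] (x : ι → K) (j : ℕ) :
    es x j = MvPolynomial.aeval x (MvPolynomial.esymm ι ℤ j) := by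
  rw [es_eq_esymm, MvPolynomial.aeval_esymm_eq_multiset_esymm]

lemma es_zero [CommSemiring K] (x : ι → K) : es x 0 = 1 := by
  simp [es]

lemma es_card [CommSemiring K] (x : ι → K) : es x (Fintype.card ι) = ∏ i, x i := by
  rw [es, ← Finset.card_univ, Finset.powersetCard_self]
  simp

lemma es_of_lt [CommSemiring K] (x : ι → K) {j : ℕ} (h : Fintype.card ι < j) : es x j = 0 := by
  rw [es, Finset.powersetCard_eq_empty.2 (by rwa [Finset.card_univ])]
  simp

lemma es_comp_equiv [CommSemiring K] {κ : Type*} [Fintype κ] (e : κ ≃ ι) (x : ι → K) (j : ℕ) :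
    es (fun i => x (e i)) j = es x j := by
  have h : ((univ : Finset κ).val.map fun i => x (e i)) = ((univ : Finset ι).val.map x) := by
    have h1 : (univ : Finset ι) = (univ : Finset κ).map e.toEmbedding := by simp
    rw [h1, Finset.map_val, Multiset.map_map]
    rfl
  rw [es_eq_esymm, es_eq_esymm, h]

lemma es_mul [CommSemiring K] (c : K) (x : ι → K) (j : ℕ) :
    es (fun i => c * x i) j = c ^ j * es x j := by
  rw [es, es, Finset.mul_sum]
  refine Finset.sum_congr rfl (fun S hS => ?_)
  rw [Finset.prod_mul_distrib, Finset.prod_const, (Finset.mem_powersetCard.1 hS).2]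

open Polynomial in
/-- The coefficients of `∏ (X - x i)`. -/
lemma coeff_prod_X_sub_C [CommRing K] (x : ι → K) {j : ℕ} (hj : j ≤ Fintype.card ι) :
    (∏ i, (X - C (x i))).coeff j
      = (-1) ^ (Fintype.card ι - j) * es x (Fintype.card ι - j) := by
  have h := Multiset.prod_X_sub_C_coeff ((univ : Finset ι).val.map x) (k := j)
    (by rw [Multiset.card_map, Finset.card_val, Finset.card_univ]; exact hj)
  rw [Multiset.card_map, Finset.card_val, Finset.card_univ, ← es_eq_esymm, Multiset.map_map] at h
  rw [← h]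
  rfl

/-- If all middle elementary symmetric functions vanish then every member has the same power. -/
lemma pow_card_of_es [CommRing K] (x : ι → K)
    (h : ∀ j, 0 < j → j < Fintype.card ι → es x j = 0) (i : ι) :
    x i ^ Fintype.card ι = - ((-1) ^ Fintype.card ι * ∏ i, x i) := by
  classical
  have hk : 0 < Fintype.card ι := Fintype.card_pos_iff.2 ⟨i⟩
  have hp : (∏ i, (Polynomial.X - Polynomial.C (x i)))
      = Polynomial.X ^ Fintype.card ι
        + Polynomial.C ((-1) ^ Fintype.card ι * ∏ i, x i) := by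
    ext j
    rw [Polynomial.coeff_add, Polynomial.coeff_X_pow, Polynomial.coeff_C]
    rcases lt_trichotomy j (Fintype.card ι) with hj | hj | hj
    · rw [coeff_prod_X_sub_C x hj.le, if_neg hj.ne]
      rcases Nat.eq_zero_or_pos j with rfl | hj0
      · rw [Nat.sub_zero, es_card]; simp
      · rw [h _ (by omega) (by omega), if_neg hj0.ne']; simp
    · subst hj
      rw [coeff_prod_X_sub_C x le_rfl, Nat.sub_self, es_zero, if_pos rfl, if_neg hk.ne']
      simp
    · rw [if_neg hj.ne', if_neg (by omega), Polynomial.coeff_eq_zero_of_natDegree_lt]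
      · simp
      · refine lt_of_le_of_lt ?_ hj
        refine (Polynomial.natDegree_prod_le _ _).trans ?_
        refine (Finset.sum_le_sum (fun i _ => Polynomial.natDegree_X_sub_C_le (x i))).trans ?_
        simp
  have h0 : (∏ j, (Polynomial.X - Polynomial.C (x j))).eval (x i) = 0 := by
    rw [Polynomial.eval_prod]
    exact Finset.prod_eq_zero (Finset.mem_univ i) (by simp)
  rw [hp] at h0
  simp only [Polynomial.eval_add, Polynomial.eval_pow, Polynomial.eval_X, Polynomial.eval_C] at h0
  exact eq_neg_of_add_eq_zero_left h0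

/-- Complementary elementary symmetric functions, for families in the unit circle. -/
lemma es_compl (x : ι → ℂ) (hx : ∀ i, ‖x i‖ = 1) {j : ℕ} (hj : j ≤ Fintype.card ι) :
    es x (Fintype.card ι - j) = (∏ i, x i) * conj (es x j) := by
  classical
  rw [es, es, map_sum, Finset.mul_sum]
  refine (Finset.sum_bij' (fun S _ => Sᶜ) (fun S _ => Sᶜ) ?_ ?_ ?_ ?_ ?_).symm
  · intro S hS
    rw [Finset.mem_powersetCard] at hS ⊢
    exact ⟨Finset.subset_univ _, by rw [Finset.card_compl, hS.2]⟩
  · intro S hS
    rw [Finset.mem_powersetCard] at hS ⊢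
    exact ⟨Finset.subset_univ _, by rw [Finset.card_compl, hS.2]; omega⟩
  · intro S _
    exact compl_compl S
  · intro S _
    exact compl_compl S
  · intro S _
    rw [map_prod, ← Finset.prod_mul_prod_compl S x, mul_right_comm, ← Finset.prod_mul_distrib]
    have : ∀ i ∈ S, x i * conj (x i) = 1 := by
      intro i _
      rw [Complex.mul_conj, Complex.normSq_eq_norm_sq, hx]
      simp
    rw [Finset.prod_congr rfl this]
    simp

lemma es_compl_eq_zero (x : ι → ℂ) (hx : ∀ i, ‖x i‖ = 1) {j : ℕ} (hj : j ≤ Fintype.card ι) :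
    es x (Fintype.card ι - j) = 0 ↔ es x j = 0 := by
  rw [es_compl x hx hj, mul_eq_zero, map_eq_zero]
  constructor
  · rintro (h | h)
    · exfalso
      obtain ⟨i, _, hi⟩ := Finset.prod_eq_zero_iff.1 h
      have := hx i
      rw [hi] at this
      simp at this
    · exact h
  · exact Or.inr

lemma norm_es_card (x : ι → ℂ) (hx : ∀ i, ‖x i‖ = 1) : ‖es x (Fintype.card ι)‖ = 1 := by
  rw [es_card, norm_prod, Finset.prod_congr rfl (fun i _ => hx i)]
  simp

end Es

/-! ### No transversal: all Vandermonde determinants vanish -/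

section Transfer

variable {n : ℕ} [NeZero n] {k : ℕ}

/-- Every set of `k` elements is listed by an injective map from `Fin k`. -/
lemma exists_list (A : Finset (ZMod n)) (hA : A.card = k) :
    ∃ a : Fin k → ZMod n, Function.Injective a ∧ univ.image a = A := by
  have e := (A.equivFinOfCardEq hA).symm
  refine ⟨fun i => (e i : ZMod n), fun i j h => e.injective (Subtype.ext h), ?_⟩
  ext x
  simp only [Finset.mem_image, Finset.mem_univ, true_and]
  constructor
  · rintro ⟨i, rfl⟩
    exact (e i).2
  · intro hx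
    exact ⟨e.symm ⟨x, hx⟩, by simp⟩

lemma exists_eq_of_not_tr {A B : Finset (ZMod n)} (h : ¬ Tr A B) (a b : Fin k → ZMod n)
    (ha : Function.Injective a) (hb : Function.Injective b) (hA : univ.image a = A)
    (hB : univ.image b = B) (s : Equiv.Perm (Fin k)) :
    ∃ i j, i ≠ j ∧ a i + b (s i) = a j + b (s j) := by
  classical
  by_contra hcon
  push Not at hcon
  apply h
  have hg : ∀ i, ∃ y, y = b (s i) := fun i => ⟨_, rfl⟩
  set f : ZMod n → ZMod n := Function.extend a (fun i => b (s i)) (fun _ => 0) with hf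
  have hfa : ∀ i, f (a i) = b (s i) := fun i => ha.extend_apply _ _ i
  have hAm : ∀ x, x ∈ (A : Set (ZMod n)) ↔ ∃ i, a i = x := by
    intro x; rw [← hA]; simp
  have hBm : ∀ x, x ∈ (B : Set (ZMod n)) ↔ ∃ i, b i = x := by
    intro x; rw [← hB]; simp
  refine ⟨f, ⟨?_, ?_, ?_⟩, ?_⟩
  · intro x hx
    obtain ⟨i, rfl⟩ := (hAm x).1 hx
    rw [hfa]
    exact (hBm _).2 ⟨_, rfl⟩
  · intro x hx y hy hxy
    obtain ⟨i, rfl⟩ := (hAm x).1 hx
    obtain ⟨j, rfl⟩ := (hAm y).1 hy
    rw [hfa, hfa] at hxy
    rw [s.injective (hb hxy)]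
  · intro y hy
    obtain ⟨j, rfl⟩ := (hBm y).1 hy
    refine ⟨a (s.symm j), (hAm _).2 ⟨_, rfl⟩, ?_⟩
    rw [hfa, Equiv.apply_symm_apply]
  · intro x hx y hy hxy
    obtain ⟨i, rfl⟩ := (hAm x).1 hx
    obtain ⟨j, rfl⟩ := (hAm y).1 hy
    simp only [hfa] at hxy
    by_contra hne
    exact hcon i j (fun hij => hne (by rw [hij])) hxy

/-- **Transfer.** Without a transversal all Vandermonde determinants of the products vanish. -/
theorem not_tr_det {A B : Finset (ZMod n)} (h : ¬ Tr A B) (a b : Fin k → ZMod n)
    (ha : Function.Injective a) (hb : Function.Injective b) (hA : univ.image a = A)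
    (hB : univ.image b = B) (s : Equiv.Perm (Fin k)) :
    (Matrix.vandermonde (fun i => chi (a i) * chi (b (s i)))).det = 0 := by
  obtain ⟨i, j, hij, he⟩ := exists_eq_of_not_tr h a b ha hb hA hB s
  rw [Matrix.det_vandermonde_eq_zero_iff]
  exact ⟨i, j, by rw [← chi_add, ← chi_add, he], hij⟩

/-- The same for two permutations. -/
theorem not_tr_det₂ {A B : Finset (ZMod n)} (h : ¬ Tr A B) (a b : Fin k → ZMod n)
    (ha : Function.Injective a) (hb : Function.Injective b) (hA : univ.image a = A)
    (hB : univ.image b = B) (s t : Equiv.Perm (Fin k)) :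
    (Matrix.vandermonde (fun i => chi (a (s i)) * chi (b (t i)))).det = 0 := by
  have h1 : univ.image (fun i => a (s i)) = A := by
    rw [← hA]
    ext x
    simp only [Finset.mem_image, Finset.mem_univ, true_and]
    exact ⟨fun ⟨i, hi⟩ => ⟨s i, hi⟩, fun ⟨i, hi⟩ => ⟨s.symm i, by rw [Equiv.apply_symm_apply, hi]⟩⟩
  exact not_tr_det h (fun i => a (s i)) b (ha.comp s.injective) hb h1 hB t

lemma vandermonde_ne_zero (a : Fin k → ZMod n) (ha : Function.Injective a) :
    (Matrix.vandermonde (fun i => chi (a i))).det ≠ 0 := by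
  rw [Matrix.det_vandermonde_ne_zero_iff]
  exact chi_inj.comp ha

end Transfer

/-! ### Cosets -/

section Cosets

variable {n : ℕ} [NeZero n] {k : ℕ}

/-- `A` is a coset of the subgroup of the elements killed by `k`. -/
def IsCos {n : ℕ} (k : ℕ) (A : Finset (ZMod n)) : Prop :=
  ∃ a : ZMod n, ∀ x : ZMod n, x ∈ A ↔ k • (x - a) = 0

/-- The subgroup of the elements killed by `k`. -/
def ker (n k : ℕ) : AddSubgroup (ZMod n) := (nsmulAddMonoidHom k : ZMod n →+ ZMod n).ker

lemma mem_ker (n k : ℕ) (x : ZMod n) : x ∈ ker n k ↔ k • x = 0 := by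
  rw [ker, AddMonoidHom.mem_ker]
  rfl

lemma card_ker_le (hk : 0 < k) (S : Finset (ZMod n)) (hS : ∀ x ∈ S, k • x = 0) : S.card ≤ k := by
  classical
  have h1 : (S.image chi).card = S.card := Finset.card_image_of_injective _ chi_inj
  have h2 : S.image chi ⊆ (Polynomial.nthRoots k (1 : ℂ)).toFinset := by
    intro z hz
    obtain ⟨x, hx, rfl⟩ := Finset.mem_image.1 hz
    rw [Multiset.mem_toFinset, Polynomial.mem_nthRoots hk, ← chi_nsmul, hS x hx, chi_zero]
  calc S.card = (S.image chi).card := h1.symm
    _ ≤ (Polynomial.nthRoots k (1 : ℂ)).toFinset.card := Finset.card_le_card h2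
    _ ≤ (Polynomial.nthRoots k (1 : ℂ)).card := Multiset.toFinset_card_le _
    _ ≤ k := Polynomial.card_nthRoots k 1

/-- A family with constant `k`-th powers lists a coset. -/
lemma isCos_of_nsmul (hk : 0 < k) (A : Finset (ZMod n)) (hA : A.card = k)
    (h : ∀ x ∈ A, ∀ y ∈ A, k • (x - y) = 0) : IsCos k A := by
  classical
  obtain ⟨a, ha⟩ : A.Nonempty := Finset.card_pos.1 (by omega)
  refine ⟨a, fun x => ⟨fun hx => h x hx a ha, fun hx => ?_⟩⟩
  by_contra hxA
  have h1 := card_ker_le (n := n) hk ((insert x A).image (fun y => y - a)) (by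
    intro y hy
    obtain ⟨z, hz, rfl⟩ := Finset.mem_image.1 hy
    rcases Finset.mem_insert.1 hz with rfl | hz
    · exact hx
    · exact h z hz a ha)
  rw [Finset.card_image_of_injective _ (sub_left_injective), Finset.card_insert_of_notMem hxA] at h1
  omega

/-- **Coset criterion.** -/
theorem isCos_of_es (hk : 0 < k) (A : Finset (ZMod n)) (a : Fin k → ZMod n)
    (ha : Function.Injective a) (hA : univ.image a = A)
    (h : ∀ j, 0 < j → j < k → es (fun i => chi (a i)) j = 0) : IsCos k A := by
  classical
  have hcard : A.card = k := by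
    rw [← hA, Finset.card_image_of_injective _ ha, Finset.card_univ, Fintype.card_fin]
  refine isCos_of_nsmul hk A hcard ?_
  intro x hx y hy
  rw [← hA] at hx hy
  obtain ⟨i, _, rfl⟩ := Finset.mem_image.1 hx
  obtain ⟨j, _, rfl⟩ := Finset.mem_image.1 hy
  have h1 := pow_card_of_es (fun i => chi (a i)) (by rw [Fintype.card_fin]; exact h)
  rw [Fintype.card_fin] at h1
  apply chi_inj
  rw [smul_sub, chi_sub, chi_nsmul, chi_nsmul, h1 i, ← h1 j, chi_zero, div_self]
  exact pow_ne_zero _ (chi_ne_zero _)

lemma IsCos.sub_mem {A : Finset (ZMod n)} (h : IsCos k A) {x y : ZMod n} (hx : x ∈ A)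
    (hy : y ∈ A) : k • (x - y) = 0 := by
  obtain ⟨a, ha⟩ := h
  have h1 := (ha x).1 hx
  have h2 := (ha y).1 hy
  have : x - y = (x - a) - (y - a) := by abel
  rw [this, smul_sub, h1, h2, sub_zero]

/-- A coset can be based at any of its elements. -/
lemma IsCos.mem_iff {A : Finset (ZMod n)} (h : IsCos k A) {a : ZMod n} (ha : a ∈ A)
    (x : ZMod n) : x ∈ A ↔ k • (x - a) = 0 := by
  constructor
  · intro hx
    exact h.sub_mem hx ha
  · intro hx
    obtain ⟨c, hc⟩ := h
    have h2 := (hc a).1 ha
    rw [hc]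
    have : x - c = (x - a) + (a - c) := by abel
    rw [this, smul_add, hx, h2, add_zero]

lemma IsCos.nonempty {A : Finset (ZMod n)} (h : IsCos k A) : A.Nonempty := by
  obtain ⟨a, ha⟩ := h
  exact ⟨a, (ha a).2 (by rw [sub_self, smul_zero])⟩

lemma IsCos.card_ker {A : Finset (ZMod n)} (h : IsCos k A) : Nat.card (ker n k) = A.card := by
  classical
  obtain ⟨a, ha⟩ := h
  have h0 : Nat.card A = A.card := by rw [Nat.card_eq_fintype_card, Fintype.card_coe]
  rw [← h0]
  refine Nat.card_congr ⟨fun x => ⟨x.1 + a, ?_⟩, fun y => ⟨y.1 - a, ?_⟩, ?_, ?_⟩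
  · have := (mem_ker n k _).1 x.2
    exact (ha _).2 (by rw [add_sub_cancel_right]; exact this)
  · exact (mem_ker n k _).2 ((ha _).1 y.2)
  · intro x
    simp
  · intro y
    simp

/-- Two cosets of the same subgroup of even order. -/
theorem cosPair_of_isCos {A B : Finset (ZMod n)} (hAc : A.card = k) (hke : Even k)
    (hA : IsCos k A) (hB : IsCos k B) : CosPair A B := by
  have hcard := hA.card_ker
  obtain ⟨a, ha⟩ := hA
  obtain ⟨b, hb⟩ := hB
  refine ⟨ker n k, by rw [hcard, hAc]; exact hke, a, b, ?_, ?_⟩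
  · intro x
    rw [ha, mem_ker]
  · intro x
    rw [hb, mem_ker]

/-- Two cosets of the same subgroup of odd order. -/
theorem tr_of_isCos {A B : Finset (ZMod n)} (hko : Odd k)
    (hA : IsCos k A) (hB : IsCos k B) : Tr A B := by
  obtain ⟨a, ha⟩ := hA
  obtain ⟨b, hb⟩ := hB
  refine ⟨fun x => x - a + b, ⟨?_, ?_, ?_⟩, ?_⟩
  · intro x hx
    refine (hb _).2 ?_
    rw [add_sub_cancel_right]
    exact (ha _).1 hx
  · intro x _ y _ hxy
    simpa using hxy
  · intro y hy
    refine ⟨y - b + a, (ha _).2 ?_, by simp⟩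
    rw [add_sub_cancel_right]
    exact (hb _).1 hy
  · intro x hx y hy hxy
    simp only at hxy
    have h2 : 2 • (x - y) = 0 := by
      rw [two_nsmul]
      have : x - y + (x - y) = (x + (x - a + b)) - (y + (y - a + b)) := by abel
      rw [this, hxy, sub_self]
    have hk : k • (x - y) = 0 := by
      have h3 := (ha _).1 hx
      have h4 := (ha _).1 hy
      have : x - y = (x - a) - (y - a) := by abel
      rw [this, smul_sub, h3, h4, sub_zero]
    obtain ⟨q, hq⟩ := hko
    have : x - y = 0 := by
      have h5 : k • (x - y) = q • (2 • (x - y)) + (x - y) := by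
        rw [hq, add_smul, one_smul, mul_smul, smul_comm]
      rw [h2, smul_zero, zero_add, hk] at h5
      exact h5.symm
    exact sub_eq_zero.1 this

/-- Both sets are cosets: either the exception or a transversal. -/
theorem cos_or_tr {A B : Finset (ZMod n)} (hAc : A.card = k)
    (hA : IsCos k A) (hB : IsCos k B) : CosPair A B ∨ Tr A B := by
  rcases Nat.even_or_odd k with h | h
  · exact Or.inl (cosPair_of_isCos hAc h hA hB)
  · exact Or.inr (tr_of_isCos h hA hB)

/-- **Lower index.** Either `A` is a coset or there is a largest `m < k / 2` with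
`es m ≠ 0`, and then `es (k - m) ≠ 0` and everything strictly between vanishes (the middle has
to be given). -/
theorem isCos_or_index (hk : 0 < k) (A : Finset (ZMod n)) (a : Fin k → ZMod n)
    (ha : Function.Injective a) (hA : univ.image a = A)
    (hmid : es (fun i => chi (a i)) (k / 2) = 0) :
    IsCos k A ∨ ∃ m, 0 < m ∧ 2 * m < k ∧ es (fun i => chi (a i)) m ≠ 0 ∧
      es (fun i => chi (a i)) (k - m) ≠ 0 ∧
      ∀ j, m < j → j < k - m → es (fun i => chi (a i)) j = 0 := by
  classical
  set x : Fin k → ℂ := fun i => chi (a i) with hx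
  have hxn : ∀ i, ‖x i‖ = 1 := fun i => chi_norm _
  have hcompl : ∀ j, j ≤ k → (es x (k - j) = 0 ↔ es x j = 0) := by
    intro j hj
    have := es_compl_eq_zero x hxn (j := j) (by rw [Fintype.card_fin]; exact hj)
    rwa [Fintype.card_fin] at this
  by_cases hall : ∀ j, 0 < j → 2 * j < k → es x j = 0
  · left
    refine isCos_of_es hk A a ha hA ?_
    intro j hj hjk
    rcases lt_trichotomy (2 * j) k with h | h | h
    · exact hall j hj h
    · have : j = k / 2 := by omega
      rw [this]; exact hmid
    · have := (hcompl (k - j) (by omega)).2 (hall (k - j) (by omega) (by omega))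
      rwa [Nat.sub_sub_self hjk.le] at this
  · right
    push Not at hall
    obtain ⟨j₀, hj₀, hj₀k, hne₀⟩ := hall
    set P : ℕ → Prop := fun m => 0 < m ∧ 2 * m < k ∧ es x m ≠ 0 with hP
    have hex : P (Nat.findGreatest P k) :=
      Nat.findGreatest_spec (m := j₀) (by omega) ⟨hj₀, hj₀k, hne₀⟩
    set m := Nat.findGreatest P k with hm
    obtain ⟨h1, h2, h3⟩ := hex
    refine ⟨m, h1, h2, h3, ?_, ?_⟩
    · intro h
      exact h3 ((hcompl m (by omega)).1 h)
    · intro j hj hjk
      rcases lt_trichotomy (2 * j) k with h | h | h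
      · by_contra hne
        have := Nat.le_findGreatest (P := P) (m := j) (n := k) (by omega) ⟨by omega, h, hne⟩
        omega
      · have : j = k / 2 := by omega
        rw [this]; exact hmid
      · by_contra hne
        have hne' : es x (k - j) ≠ 0 := fun h0 => hne (by
          have := (hcompl (k - j) (by omega)).2 h0
          rwa [Nat.sub_sub_self (by omega)] at this)
        have := Nat.le_findGreatest (P := P) (m := k - j) (n := k) (by omega)
          ⟨by omega, by omega, hne'⟩
        omega

end Cosets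

end Pool.Agent.Helper73.SNC
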