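import Pool.Agent.Helper73.SNC.CaseI
import Pool.Agent.Helper91.CYC.PieceE
import Pool.Agent.Helper10.CYC.PieceC
import Pool.Agent.Helper10.CYC.PieceD
import Pool.Agent.Helper47.CYC.PolyF
import Pool.Agent.Helper75.CYC.PolyG
import Pool.Agent.Helper75.CYC.CaseI
import Pool.Agent.Helper75.CYC.S2

/-!
# Assembly for even size

`ST_Gap` is the only remaining statement: for a pair without transversal such that the gap of the
elementary symmetric functions of `A` around the middle is wider than the middle alone, `B` is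
invariant under `x ↦ x + n / 2`.
`main_of_gap`: it implies the theorem for all even `n`.
-/

set_option autoImplicit false

namespace Pool.Agent.Helper73.SNC

open Finset Polynomial Pool.Agent.Helper10.CYC Pool.Agent.Helper7.SN

lemma st_oddCoeff : ST_OddCoeff := fun r hr f hf hd h0 h =>
  Helper75.CYC.odd_coeff_zero r hr f hf hd h0 h

/-- A wide gap of `A` and no transversal: `B` is invariant under `x ↦ x + n / 2`.  (The last
hypothesis follows from the previous one, it is there for convenience.) -/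
def ST_Gap : Prop := ∀ (n : ℕ) [NeZero n] (r m : ℕ) (A B : Finset (ZMod n))
  (a b : Fin (2 * r) → ZMod n), Even n → ¬ Tr A B → ¬ IsCos (2 * r) A →
  Function.Injective a → Function.Injective b → univ.image a = A → univ.image b = B →
  0 < m → m + 2 ≤ r → SNC.es (fun i => chi (a i)) m ≠ 0 →
  SNC.es (fun i => chi (a i)) (2 * r - m) ≠ 0 →
  (∀ i, m < i → i < 2 * r - m → SNC.es (fun i => chi (a i)) i = 0) →
  ¬ (∀ x ∈ B, x + ((n / 2 : ℕ) : ZMod n) ∈ B) →
  ¬ (∀ j, Odd j → (2 : AI) ∣ SNC.es (fun i => chiAI (b i)) j) → False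

variable {n : ℕ} [NeZero n]

/-- One side of a pair of sets without transversal. -/
lemma side_of_not_tr (hgap : ST_Gap) (hn : Even n) {r : ℕ} (hr : 0 < r)
    {A B : Finset (ZMod n)} (h : ¬ Tr A B)
    (a b : Fin (2 * r) → ZMod n) (ha : Function.Injective a) (hb : Function.Injective b)
    (hA : univ.image a = A) (hB : univ.image b = B) (hcos : ¬ IsCos (2 * r) A) :
    ∀ x ∈ B, x + ((n / 2 : ℕ) : ZMod n) ∈ B := by
  obtain ⟨κ, i1, i2, i3, φ, hφ⟩ := st_b Helper91.CYC.st_a1 Helper91.CYC.st_a2
  obtain ⟨D, hD, hD0, hk, hf⟩ := Helper7.CYC.square_of_not_coset Helper91.CYC.st_a5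
    Helper10.CYC.st_c Helper10.CYC.st_d Helper91.CYC.st_e Helper47.CYC.st_f Helper75.CYC.st_g
    φ hφ h a b ha hb hA hB hcos
  have hmid : SNC.es (fun i => chi (a i)) (2 * r / 2) = 0 := by
    have h1 := Helper7.CYC.es_zero_of_range Helper91.CYC.st_a5 Helper10.CYC.st_c
      Helper91.CYC.st_e φ hφ h a b ha hb hA hB D 1 hD monic_one hD0 (by simp) squarefree_one
      (by rw [hf, mul_one]) (2 * r / 2) (by omega) (by omega)
      (by rw [natDegree_one]; omega)
    exact h1
  rcases isCos_or_index (by omega) A a ha hA hmid with h1 | ⟨m, hm0, hm1, hm2, hm3, hm4⟩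
  · exact absurd h1 hcos
  · by_cases hmr : m + 2 ≤ r
    · by_contra hno
      refine hgap n r m A B a b hn h hcos ha hb hA hB hm0 hmr hm2 hm3 hm4 hno (fun h2 => hno ?_)
      rw [← hB]
      exact periodic_of_odd_es hn b hb h2
    · have hm : m = r - 1 := by omega
      have h2 := caseI Helper10.CYC.st_c st_oddCoeff (by omega) h a b ha hb hA hB (hm ▸ hm2)
      rw [← hB]
      exact periodic_of_odd_es hn b hb h2

/-- The core statement. -/
theorem core_of_gap (hgap : ST_Gap) (hn : Even n) (A B : Finset (ZMod n))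
    (hAB : A.card = B.card) (he : Even A.card) (h0 : 0 < A.card) (hcA : ¬ IsCos A.card A)
    (hcB : ¬ IsCos A.card B) : Tr A B ∨ CosPair A B := by
  obtain ⟨r, hr⟩ := he
  have hr2 : A.card = 2 * r := by omega
  obtain ⟨a, ha, hA⟩ := exists_list A hr2
  obtain ⟨b, hb, hB⟩ := exists_list B (hAB ▸ hr2 : B.card = 2 * r)
  by_cases h : Tr A B
  · exact Or.inl h
  have h' : ¬ Tr B A := fun h1 => h h1.symm
  rw [hr2] at hcA hcB
  exact SN.perP (Nat.pos_of_ne_zero (NeZero.ne n)) hn A B hAB
    (side_of_not_tr hgap hn (by omega) h' b a hb ha hB hA hcB)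
    (side_of_not_tr hgap hn (by omega) h a b ha hb hA hB hcA)

/-- The theorem for even `n`, from the gap statement. -/
theorem good_of_gap (hgap : ST_Gap) (hn : Even n) (A B : Finset (ZMod n))
    (hAB : A.card = B.card) : Tr A B ∨ CosPair A B := by
  refine Helper75.CYC.good_of_core ?_ ?_ A B hAB
  · intro A B hAB hodd
    exact Helper7.CYC.tr_of_odd Helper91.CYC.st_a5 (st_b Helper91.CYC.st_a1 Helper91.CYC.st_a2)
      Helper10.CYC.st_c Helper10.CYC.st_d Helper91.CYC.st_e Helper47.CYC.st_f Helper75.CYC.st_g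
      hAB hodd
  · intro A B hAB he h0 hcA hcB _
    exact core_of_gap hgap hn A B hAB he h0 hcA hcB

/-- The frozen statement, from the gap statement. -/
theorem main_of_gap (hgap : ST_Gap) : ∀ n : ℕ, 0 < n → Even n →
      ∀ A B : Finset (ZMod n), A.card = B.card →
        (¬ ∃ f : ZMod n → ZMod n,
            Set.BijOn f (A : Set (ZMod n)) (B : Set (ZMod n)) ∧
            Set.InjOn (fun a => a + f a) (A : Set (ZMod n))) →
        ∃ H : AddSubgroup (ZMod n), Even (Nat.card H) ∧
          ∃ a b : ZMod n,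
            (∀ x : ZMod n, x ∈ A ↔ x - a ∈ H) ∧
            (∀ x : ZMod n, x ∈ B ↔ x - b ∈ H) := by
  intro n hn0 hn A B hAB hno
  haveI : NeZero n := ⟨hn0.ne'⟩
  rcases good_of_gap hgap hn A B hAB with h | h
  · exact absurd h hno
  · exact h

end Pool.Agent.Helper73.SNC
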