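import Pool.Agent.Helper73.SNC.Val

/-!
# The arithmetic of the odd power sums

`B` a set of `n`-th roots of unity, `n` even, in a local domain `R` with residue characteristic 2,
whose polynomial is a square over the residue field and which is not invariant under `-1`.  Over a
suitable quotient `Lam` of `R` of characteristic 2 the odd power sums of `B` are a multiple, by one
element `α` of square zero, of those of a set of roots of unity of odd order.
-/

set_option autoImplicit false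
set_option linter.unusedSectionVars false

namespace Pool.Agent.Helper73.SNC.C1

open Finset Polynomial IsLocalRing

/-! ### Integer polynomials modulo 2 -/

/-- Reduction modulo 2. -/
noncomputable def cbar (c : ℤ[X]) : (ZMod 2)[X] := c.map (Int.castRingHom (ZMod 2))

/-- The order of vanishing at 1 modulo 2. -/
noncomputable def ord1 (c : ℤ[X]) : ℕ := (cbar c).rootMultiplicity 1

lemma eq_two_mul_of_cbar (c : ℤ[X]) (h : cbar c = 0) : ∃ w : ℤ[X], c = C 2 * w := by
  have h4 : (C 2 : ℤ[X]) ∣ c := by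
    rw [Polynomial.C_dvd_iff_dvd_coeff]
    intro i
    have := congrArg (fun p => p.coeff i) h
    simp only [cbar, Polynomial.coeff_map, Polynomial.coeff_zero, eq_intCast] at this
    exact (ZMod.intCast_zmod_eq_zero_iff_dvd _ 2).1 this
  obtain ⟨w, hw⟩ := h4
  exact ⟨w, hw⟩

lemma eval_one_cbar (u : ℤ[X]) : (cbar u).eval 1 = ((u.eval 1 : ℤ) : ZMod 2) := by
  have := Polynomial.eval_intCast_map (Int.castRingHom (ZMod 2)) u 1
  simp only [Int.cast_one, eq_intCast] at this
  exact this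

lemma poly_struct (c : ℤ[X]) (hne : cbar c ≠ 0) :
    ∃ u w : ℤ[X], c = (X - 1) ^ (ord1 c) * u + C 2 * w ∧ Odd (u.eval 1) := by
  obtain ⟨ub, hub, hub1⟩ := Polynomial.exists_eq_pow_rootMultiplicity_mul_and_not_dvd (cbar c)
    hne 1
  have hub2 : ub.eval 1 ≠ 0 := fun h0 => hub1 (Polynomial.dvd_iff_isRoot.2 h0)
  obtain ⟨u, hu⟩ := Polynomial.map_surjective (Int.castRingHom (ZMod 2))
    ZMod.intCast_surjective ub
  have h3 : cbar (c - (X - 1) ^ (ord1 c) * u) = 0 := by
    rw [cbar, Polynomial.map_sub, Polynomial.map_mul, Polynomial.map_pow, Polynomial.map_sub,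
      Polynomial.map_X, Polynomial.map_one, hu, sub_eq_zero]
    rw [← C_1]
    exact hub
  obtain ⟨w, hw⟩ := eq_two_mul_of_cbar _ h3
  refine ⟨u, w, by rw [← hw]; ring, ?_⟩
  rw [← hu] at hub2
  have h5 : ((u.eval 1 : ℤ) : ZMod 2) ≠ 0 := by
    rw [← eval_one_cbar]
    exact hub2
  rw [← Int.not_even_iff_odd]
  intro h6
  apply h5
  exact (ZMod.intCast_zmod_eq_zero_iff_dvd _ 2).2 (by exact_mod_cast h6.two_dvd)

lemma ord1_lt (c : ℤ[X]) (N : ℕ) (hN : c.natDegree < N) : ord1 c < N := by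
  have h1 : ord1 c ≤ (cbar c).natDegree := by
    rw [ord1, ← Polynomial.count_roots]
    exact (Multiset.count_le_card _ _).trans (Polynomial.card_roots' _)
  have h2 : (cbar c).natDegree ≤ c.natDegree := Polynomial.natDegree_map_le
  omega

lemma one_le_ord1 (c : ℤ[X]) (hne : cbar c ≠ 0) (h : Even (c.eval 1)) : 1 ≤ ord1 c := by
  have h1 : (cbar c).IsRoot 1 := by
    rw [Polynomial.IsRoot.def, eval_one_cbar]
    exact (ZMod.intCast_zmod_eq_zero_iff_dvd _ 2).2 (by exact_mod_cast h.two_dvd)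
  exact (Polynomial.rootMultiplicity_pos hne).2 h1

/-! ### The value of such a polynomial at `θ ^ i` -/

section Value

variable {R : Type*} [CommRing R] [IsDomain R] [IsLocalRing R]

lemma charP_residue (h2 : (2 : R) ∈ maximalIdeal R) : CharP (ResidueField R) 2 := by
  refine CharTwo.of_one_ne_zero_of_two_eq_zero one_ne_zero ?_
  have : (2 : ResidueField R) = residue R 2 := by rw [map_ofNat]
  rw [this, IsLocalRing.residue_eq_zero_iff]
  exact h2

variable (h2 : (2 : R) ∈ maximalIdeal R) (s : ℕ) (θ : R) (hθ : θ ^ (2 ^ s) = -1)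

include h2 hθ in
lemma residue_theta : residue R θ = 1 := by
  have := charP_residue h2
  have h1 : (residue R θ) ^ (2 ^ s) = 1 := by
    rw [← map_pow, hθ, map_neg, map_one, CharTwo.neg_eq]
  have h2 : (residue R θ - 1) ^ (2 ^ s) = 0 := by
    rw [sub_pow_char_pow, h1, one_pow, sub_self]
  exact sub_eq_zero.1 (pow_eq_zero_iff (by positivity) |>.1 h2)

include h2 hθ in
lemma pi_mem : θ - 1 ∈ maximalIdeal R := by
  rw [← IsLocalRing.residue_eq_zero_iff, map_sub, map_one, residue_theta h2 s θ hθ, sub_self]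

/-- `2` is a multiple of `(θ - 1) ^ (2 ^ s)`. -/
lemma two_eq (s : ℕ) (θ : R) (hθ : θ ^ (2 ^ s) = -1) : ∃ t : R, (2 : R) = (θ - 1) ^ (2 ^ s) * t := by
  obtain ⟨t, ht⟩ := Gen.pow_dvd_two s θ hθ
  refine ⟨(-1) ^ (2 ^ s) * t, ?_⟩
  rw [ht, ← mul_assoc, ← mul_pow]
  congr 2
  ring

include h2 hθ in
lemma two_mem (ν : ℕ) (hν : ν < 2 ^ s) :
    ∃ m ∈ maximalIdeal R, (2 : R) = (θ - 1) ^ ν * m := by
  obtain ⟨t, ht⟩ := two_eq s θ hθ
  refine ⟨(θ - 1) ^ (2 ^ s - ν) * t, ?_, ?_⟩
  · refine Ideal.mul_mem_right _ _ ?_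
    exact Ideal.pow_mem_of_mem _ (pi_mem h2 s θ hθ) _ (by omega)
  · rw [← mul_assoc, ← pow_add, ht]
    congr 2
    omega

include h2 hθ in
lemma residue_aeval (u : ℤ[X]) (hu : Odd (u.eval 1)) (i : ℕ) :
    residue R (aeval (θ ^ i) u) = 1 := by
  have := charP_residue h2
  rw [Polynomial.aeval_def, Polynomial.hom_eval₂, map_pow, residue_theta h2 s θ hθ, one_pow]
  have : ((residue R).comp (algebraMap ℤ R)) = Int.castRingHom (ResidueField R) :=
    RingHom.ext_int _ _
  rw [this]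
  have h13 := Polynomial.eval₂_at_intCast (p := u) (Int.castRingHom (ResidueField R)) 1
  simp only [Int.cast_one, eq_intCast] at h13
  rw [h13]
  obtain ⟨q, hq⟩ := hu
  rw [hq]
  push_cast
  rw [CharTwo.two_eq_zero, zero_mul, zero_add]

include h2 hθ in
/-- `θ ^ i - 1 = (θ - 1) (1 + ..)` for odd `i`. -/
lemma theta_pow_sub (i : ℕ) (hi : Odd i) :
    ∃ q : R, residue R q = 1 ∧ θ ^ i - 1 = (θ - 1) * q := by
  have := charP_residue h2
  refine ⟨∑ j ∈ range i, θ ^ j, ?_, ?_⟩
  · rw [map_sum]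
    have : ∀ j ∈ range i, residue R (θ ^ j) = 1 := by
      intro j _
      rw [map_pow, residue_theta h2 s θ hθ, one_pow]
    rw [Finset.sum_congr rfl this, Finset.sum_const, card_range, nsmul_eq_mul, mul_one]
    obtain ⟨q, hq⟩ := hi
    rw [hq]
    push_cast
    rw [CharTwo.two_eq_zero, zero_mul, zero_add]
  · rw [mul_geom_sum]

include h2 hθ in
/-- Value when the order is larger or the polynomial is zero modulo 2. -/
lemma value_large (c : ℤ[X]) (ν : ℕ) (hν : ν < 2 ^ s)
    (h : cbar c = 0 ∨ ν < ord1 c) (i : ℕ) (hi : Odd i) :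
    ∃ m ∈ maximalIdeal R, aeval (θ ^ i) c = (θ - 1) ^ ν * m := by
  obtain ⟨m2, hm2, h22⟩ := two_mem h2 s θ hθ ν hν
  by_cases h0 : cbar c = 0
  · obtain ⟨w, hw⟩ := eq_two_mul_of_cbar c h0
    refine ⟨m2 * aeval (θ ^ i) w, Ideal.mul_mem_right _ _ hm2, ?_⟩
    have e : aeval (θ ^ i) c = 2 * aeval (θ ^ i) w := by
      rw [hw]
      simp only [map_mul, map_ofNat]
    rw [e, h22]
    ring
  · have hlt : ν < ord1 c := h.resolve_left h0
    obtain ⟨u, w, hc, hu⟩ := poly_struct c h0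
    obtain ⟨q, hq, hq1⟩ := theta_pow_sub h2 s θ hθ i hi
    refine ⟨(θ - 1) ^ (ord1 c - ν) * (q ^ (ord1 c) * aeval (θ ^ i) u) + m2 * aeval (θ ^ i) w,
      Ideal.add_mem _ ?_ (Ideal.mul_mem_right _ _ hm2), ?_⟩
    · exact Ideal.mul_mem_right _ _
        (Ideal.pow_mem_of_mem _ (pi_mem h2 s θ hθ) _ (by omega))
    · have e : aeval (θ ^ i) c = (θ ^ i - 1) ^ (ord1 c) * aeval (θ ^ i) u
          + 2 * aeval (θ ^ i) w := by
        conv_lhs => rw [hc]
        simp only [map_add, map_mul, map_pow, map_sub, map_one, aeval_X, map_ofNat]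
      have e2 : (θ - 1) ^ (ord1 c) = (θ - 1) ^ ν * (θ - 1) ^ (ord1 c - ν) := by
        rw [← pow_add]
        congr 1
        omega
      rw [e, hq1, mul_pow, e2, h22]
      ring

include h2 hθ in
/-- Value when the order is exactly `ν`. -/
lemma value_exact (c : ℤ[X]) (hν : ord1 c < 2 ^ s) (h0 : cbar c ≠ 0) (i : ℕ) (hi : Odd i) :
    ∃ m ∈ maximalIdeal R, aeval (θ ^ i) c = (θ - 1) ^ (ord1 c) * (1 + m) := by
  obtain ⟨m2, hm2, h22⟩ := two_mem h2 s θ hθ (ord1 c) hν
  obtain ⟨u, w, hc, hu⟩ := poly_struct c h0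
  obtain ⟨q, hq, hq1⟩ := theta_pow_sub h2 s θ hθ i hi
  refine ⟨(q ^ (ord1 c) * aeval (θ ^ i) u - 1) + m2 * aeval (θ ^ i) w,
    Ideal.add_mem _ ?_ (Ideal.mul_mem_right _ _ hm2), ?_⟩
  · rw [← IsLocalRing.residue_eq_zero_iff, map_sub, map_mul, map_pow, hq,
      residue_aeval h2 s θ hθ u hu, map_one, one_pow, mul_one, sub_self]
  · have e : aeval (θ ^ i) c = (θ ^ i - 1) ^ (ord1 c) * aeval (θ ^ i) u
        + 2 * aeval (θ ^ i) w := by
      conv_lhs => rw [hc]
      simp only [map_add, map_mul, map_pow, map_sub, map_one, aeval_X, map_ofNat]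
    rw [e, hq1, mul_pow, h22]
    ring

end Value

/-! ### Decomposition of `ZMod n` -/

section Decomp

variable {n : ℕ} [NeZero n]

lemma bezout (s n' : ℕ) (hodd : Odd n') :
    ∃ A B : ℤ, (2 : ℤ) ^ (s + 1) * A + n' * B = 1 := by
  have h1 : Nat.Coprime (2 ^ (s + 1)) n' := Nat.Coprime.pow_left _
    ((Nat.coprime_two_left).2 hodd)
  refine ⟨Nat.gcdA (2 ^ (s + 1)) n', Nat.gcdB (2 ^ (s + 1)) n', ?_⟩
  have h2 := Nat.gcd_eq_gcd_ab (2 ^ (s + 1)) n'
  rw [Nat.coprime_iff_gcd_eq_one.1 h1] at h2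
  push_cast at h2
  exact h2.symm

lemma exists_odd (s n' : ℕ) (hn' : n = 2 ^ (s + 1) * n') (hodd : Odd n') (x : ZMod n) :
    ∃ y : ZMod n, n' • y = 0 ∧ (2 ^ (s + 1)) • (x - y) = 0 := by
  obtain ⟨A, B, h⟩ := bezout s n' hodd
  have h0 : (2 : ZMod n) ^ (s + 1) * (n' : ZMod n) = 0 := by
    have h1 := ZMod.natCast_self n
    have h2 : ((2 ^ (s + 1) * n' : ℕ) : ZMod n) = 0 := by rw [← hn']; exact h1
    push_cast at h2
    exact h2
  have h' : (2 : ZMod n) ^ (s + 1) * (A : ZMod n) + (n' : ZMod n) * (B : ZMod n) = 1 := by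
    have := congrArg (fun z : ℤ => (z : ZMod n)) h
    push_cast at this
    exact this
  refine ⟨(2 : ZMod n) ^ (s + 1) * (A : ZMod n) * x, ?_, ?_⟩
  · rw [nsmul_eq_mul]
    calc (n' : ZMod n) * ((2 : ZMod n) ^ (s + 1) * (A : ZMod n) * x)
        = ((2 : ZMod n) ^ (s + 1) * (n' : ZMod n)) * ((A : ZMod n) * x) := by ring
      _ = 0 := by rw [h0, zero_mul]
  · rw [nsmul_eq_mul]
    push_cast
    have h3 : x - (2 : ZMod n) ^ (s + 1) * (A : ZMod n) * x
        = (n' : ZMod n) * (B : ZMod n) * x := by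
      calc x - (2 : ZMod n) ^ (s + 1) * (A : ZMod n) * x
          = ((2 : ZMod n) ^ (s + 1) * (A : ZMod n) + (n' : ZMod n) * (B : ZMod n)) * x
            - (2 : ZMod n) ^ (s + 1) * (A : ZMod n) * x := by rw [h', one_mul]
        _ = (n' : ZMod n) * (B : ZMod n) * x := by ring
    rw [h3]
    calc (2 : ZMod n) ^ (s + 1) * ((n' : ZMod n) * (B : ZMod n) * x)
        = ((2 : ZMod n) ^ (s + 1) * (n' : ZMod n)) * ((B : ZMod n) * x) := by ring
      _ = 0 := by rw [h0, zero_mul]

lemma unique_odd (s n' : ℕ) (hodd : Odd n') (y : ZMod n) (h1 : n' • y = 0)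
    (h2 : (2 ^ (s + 1)) • y = 0) : y = 0 := by
  obtain ⟨A, B, h⟩ := bezout s n' hodd
  have h' : (2 : ZMod n) ^ (s + 1) * (A : ZMod n) + (n' : ZMod n) * (B : ZMod n) = 1 := by
    have := congrArg (fun z : ℤ => (z : ZMod n)) h
    push_cast at this
    exact this
  rw [nsmul_eq_mul] at h1 h2
  push_cast at h2
  calc y = ((2 : ZMod n) ^ (s + 1) * (A : ZMod n) + (n' : ZMod n) * (B : ZMod n)) * y := by
        rw [h', one_mul]
    _ = (A : ZMod n) * ((2 : ZMod n) ^ (s + 1) * y) + (B : ZMod n) * ((n' : ZMod n) * y) := by ring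
    _ = 0 := by rw [h1, h2]; ring

/-- The elements of odd order. -/
def oddEl (n n' : ℕ) [NeZero n] : Finset (ZMod n) := univ.filter (fun y => n' • y = 0)

lemma mem_oddEl (n' : ℕ) (y : ZMod n) : y ∈ oddEl n n' ↔ n' • y = 0 := by
  simp [oddEl]

lemma sum_decomp {M : Type*} [AddCommMonoid M] (s n' : ℕ) (hn' : n = 2 ^ (s + 1) * n')
    (hodd : Odd n') {k : ℕ} (b : Fin k → ZMod n) (F : ZMod n → M) :
    ∑ l, F (b l) = ∑ y ∈ oddEl n n', ∑ l,
      if (2 ^ (s + 1)) • (b l - y) = 0 then F (b l) else 0 := by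
  classical
  rw [Finset.sum_comm]
  refine Finset.sum_congr rfl (fun l _ => ?_)
  obtain ⟨y, hy1, hy2⟩ := exists_odd s n' hn' hodd (b l)
  rw [Finset.sum_eq_single y]
  · rw [if_pos hy2]
  · intro y' hy' hne
    rw [if_neg]
    intro h
    apply hne
    rw [mem_oddEl] at hy'
    have h1 : (2 ^ (s + 1)) • (y' - y) = 0 := by
      have : y' - y = (b l - y) - (b l - y') := by abel
      rw [this, smul_sub, hy2, h, sub_zero]
    have h2 : n' • (y' - y) = 0 := by rw [smul_sub, hy', hy1, sub_zero]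
    exact sub_eq_zero.1 (unique_odd s n' hodd _ h2 h1)
  · intro h
    exact absurd ((mem_oddEl n' y).2 hy1) h

/-- The indicator of a finite set with integer values. -/
def ind (B : Finset (ZMod n)) (x : ZMod n) : ℤ := if x ∈ B then 1 else 0

/-- The polynomial of a fibre. -/
noncomputable def cpoly (s n' : ℕ) (B : Finset (ZMod n)) (y : ZMod n) : ℤ[X] :=
  ∑ i ∈ range (2 ^ s), C (ind B (y + ((n' * i : ℕ) : ZMod n))
    - ind B (y + ((n' * (2 ^ s + i) : ℕ) : ZMod n))) * X ^ i

lemma natDegree_cpoly (s n' : ℕ) (B : Finset (ZMod n)) (y : ZMod n) :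
    (cpoly s n' B y).natDegree < 2 ^ s := by
  have h2 : (cpoly s n' B y).natDegree ≤ 2 ^ s - 1 := by
    rw [cpoly]
    refine Polynomial.natDegree_sum_le_of_forall_le _ _ (fun i hi => ?_)
    refine (Polynomial.natDegree_C_mul_X_pow_le _ _).trans ?_
    have := Finset.mem_range.1 hi
    omega
  have : 0 < 2 ^ s := by positivity
  omega

lemma coeff_cpoly (s n' : ℕ) (B : Finset (ZMod n)) (y : ZMod n) (i : ℕ) (hi : i < 2 ^ s) :
    (cpoly s n' B y).coeff i = ind B (y + ((n' * i : ℕ) : ZMod n))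
      - ind B (y + ((n' * (2 ^ s + i) : ℕ) : ZMod n)) := by
  rw [cpoly, Polynomial.finsetSum_coeff, Finset.sum_eq_single i]
  · rw [Polynomial.coeff_C_mul, Polynomial.coeff_X_pow, if_pos rfl, mul_one]
  · intro j _ hj
    rw [Polynomial.coeff_C_mul, Polynomial.coeff_X_pow, if_neg (Ne.symm hj), mul_zero]
  · intro h'
    exact absurd (Finset.mem_range.2 hi) h'

variable {R : Type*} [CommRing R]

lemma aeval_cpoly (s n' : ℕ) (B : Finset (ZMod n)) (y : ZMod n) (θ : R) (hθ : θ ^ (2 ^ s) = -1) :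
    aeval θ (cpoly s n' B y) = ∑ j ∈ range (2 ^ (s + 1)),
      (if y + ((n' * j : ℕ) : ZMod n) ∈ B then 1 else 0) * θ ^ j := by
  have hindc : ∀ x : ZMod n, (if x ∈ B then (1 : R) else 0) = ((ind B x : ℤ) : R) := by
    intro x
    simp only [ind]
    split_ifs <;> simp
  have e : 2 ^ (s + 1) = 2 ^ s + 2 ^ s := by rw [pow_succ]; ring
  rw [e, Finset.sum_range_add, ← Finset.sum_add_distrib, cpoly, map_sum]
  refine Finset.sum_congr rfl (fun i _ => ?_)
  rw [map_mul, map_pow, aeval_X, hindc, hindc, pow_add, hθ]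
  have : aeval θ (C (ind B (y + ((n' * i : ℕ) : ZMod n))
      - ind B (y + ((n' * (2 ^ s + i) : ℕ) : ZMod n))))
    = (((ind B (y + ((n' * i : ℕ) : ZMod n)) : ℤ) : R)
      - ((ind B (y + ((n' * (2 ^ s + i) : ℕ) : ZMod n)) : ℤ) : R)) := by
    rw [aeval_C]
    simp
  rw [this]
  ring

lemma psi_theta [IsDomain R] (ψ : AddChar (ZMod n) R) (n' : ℕ) (j : ℕ) :
    ψ ((n' * j : ℕ) : ZMod n) = ψ ((n' : ℕ) : ZMod n) ^ j := by
  rw [← Gen.psi_nsmul]
  congr 1
  rw [nsmul_eq_mul]
  push_cast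
  ring

/-- The contribution of a fibre to the odd power sums. -/
lemma coset_value [IsDomain R] (ψ : AddChar (ZMod n) R) (s n' : ℕ) (hn' : n = 2 ^ (s + 1) * n')
    (hθ : ψ ((n' : ℕ) : ZMod n) ^ (2 ^ s) = -1) {k : ℕ} (b : Fin k → ZMod n)
    (hb : Function.Injective b) (y : ZMod n) (i : ℕ) (hi : Odd i) :
    (∑ l, if (2 ^ (s + 1)) • (b l - y) = 0 then ψ (b l) ^ i else 0)
      = ψ y ^ i * aeval (ψ ((n' : ℕ) : ZMod n) ^ i) (cpoly s n' (univ.image b) y) := by
  have h1 := Gen.coset_sum_eq (ψ ^ i) s n' hn' b hb y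
  have h2 : (ψ ((n' : ℕ) : ZMod n) ^ i) ^ (2 ^ s) = -1 := by
    rw [← pow_mul, mul_comm, pow_mul, hθ, Odd.neg_one_pow hi]
  rw [aeval_cpoly s n' _ y _ h2]
  have h3 : ∑ j ∈ range (2 ^ (s + 1)),
      (if y + ((n' * j : ℕ) : ZMod n) ∈ univ.image b then 1 else 0)
        * (ψ ((n' : ℕ) : ZMod n) ^ i) ^ j
      = ∑ j ∈ range (2 ^ (s + 1)),
      (if y + ((n' * j : ℕ) : ZMod n) ∈ univ.image b then 1 else 0)
        * (ψ ^ i) ((n' * j : ℕ) : ZMod n) := by
    refine Finset.sum_congr rfl (fun j _ => ?_)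
    rw [AddChar.pow_apply, psi_theta, ← pow_mul, ← pow_mul, mul_comm i j]
  rw [h3, ← h1, Finset.mul_sum]
  refine Finset.sum_congr rfl (fun l _ => ?_)
  split_ifs with h
  · rw [AddChar.pow_apply, ← mul_pow, ← Gen.psi_add]
    congr 2
    abel
  · rw [mul_zero]

/-- The value at 1 has the parity of the fibre. -/
lemma eval_one_cpoly (s n' : ℕ) (hn' : n = 2 ^ (s + 1) * n') {k : ℕ} (b : Fin k → ZMod n)
    (hb : Function.Injective b) (y : ZMod n)
    (h : Even (univ.filter (fun l => (2 ^ (s + 1)) • (b l - y) = 0)).card) :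
    Even ((cpoly s n' (univ.image b) y).eval 1) := by
  have h1 := Gen.coset_sum_eq (1 : AddChar (ZMod n) ℤ) s n' hn' b hb y
  simp only [AddChar.one_apply, mul_one] at h1
  have h2 : (cpoly s n' (univ.image b) y).eval 1
      = (∑ j ∈ range (2 ^ (s + 1)), ind (univ.image b) (y + ((n' * j : ℕ) : ZMod n)))
        - 2 * ∑ i ∈ range (2 ^ s), ind (univ.image b) (y + ((n' * (2 ^ s + i) : ℕ) : ZMod n)) := by
    have e : 2 ^ (s + 1) = 2 ^ s + 2 ^ s := by rw [pow_succ]; ring
    rw [e, Finset.sum_range_add, cpoly, Polynomial.eval_finsetSum]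
    simp only [Polynomial.eval_mul, Polynomial.eval_C, Polynomial.eval_pow, Polynomial.eval_X,
      one_pow, mul_one]
    rw [Finset.sum_sub_distrib]
    ring
  have h3 : (∑ j ∈ range (2 ^ (s + 1)), ind (univ.image b) (y + ((n' * j : ℕ) : ZMod n)))
      = ((univ.filter (fun l => (2 ^ (s + 1)) • (b l - y) = 0)).card : ℤ) := by
    rw [Finset.natCast_card_filter, h1]
    rfl
  rw [h2, h3]
  have h4 : Even ((univ.filter (fun l => (2 ^ (s + 1)) • (b l - y) = 0)).card : ℤ) := by
    exact_mod_cast h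
  exact h4.sub (even_two_mul _)

end Decomp

/-! ### Residues -/

section Res

variable {R : Type*} [CommRing R] [IsDomain R] [IsLocalRing R] (h2 : (2 : R) ∈ maximalIdeal R)
  {n : ℕ} [NeZero n] (ψ : AddChar (ZMod n) R) (hψ : Function.Injective ψ)

include h2 in
lemma residue_two_part (s : ℕ) (z : ZMod n) (hz : (2 ^ (s + 1)) • z = 0) :
    residue R (ψ z) = 1 := by
  have := charP_residue h2
  have h1 : (residue R (ψ z)) ^ (2 ^ (s + 1)) = 1 := by
    rw [← map_pow, ← Gen.psi_nsmul, hz, Gen.psi_zero, map_one]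
  have h2 : (residue R (ψ z) - 1) ^ (2 ^ (s + 1)) = 0 := by
    rw [sub_pow_char_pow, h1, one_pow, sub_self]
  exact sub_eq_zero.1 (pow_eq_zero_iff (by positivity) |>.1 h2)

include h2 hψ in
lemma residue_odd_part (n' : ℕ) (hodd : Odd n') (z : ZMod n) (hz : n' • z = 0)
    (h : residue R (ψ z) = 1) : z = 0 := by
  have := charP_residue h2
  by_contra hne
  have h1 : ψ z ≠ 1 := by
    intro h1
    apply hne
    apply hψ
    rw [h1, Gen.psi_zero]
  have h3 : ψ z ^ n' = 1 := by rw [← Gen.psi_nsmul, hz, Gen.psi_zero]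
  have h4 := geom_sum_mul (ψ z) n'
  rw [h3, sub_self] at h4
  have h5 : ∑ i ∈ range n', ψ z ^ i = 0 := (mul_eq_zero.1 h4).resolve_right (sub_ne_zero.2 h1)
  have h6 := congrArg (residue R) h5
  rw [map_sum, map_zero] at h6
  have : ∀ j ∈ range n', residue R (ψ z ^ j) = 1 := by
    intro j _
    rw [map_pow, h, one_pow]
  rw [Finset.sum_congr rfl this, Finset.sum_const, card_range, nsmul_eq_mul, mul_one] at h6
  obtain ⟨q, hq⟩ := hodd
  rw [hq] at h6
  push_cast at h6
  rw [CharTwo.two_eq_zero, zero_mul, zero_add] at h6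
  exact one_ne_zero h6

lemma isUnit_psi (z : ZMod n) : IsUnit (ψ z) := by
  refine IsUnit.of_mul_eq_one (ψ (-z)) ?_
  rw [← Gen.psi_add, add_neg_cancel, Gen.psi_zero]

include h2 hψ in
/-- Two roots of unity have the same residue exactly if their difference has order a power of 2. -/
lemma residue_eq_iff (s n' : ℕ) (hn' : n = 2 ^ (s + 1) * n') (hodd : Odd n') (x y : ZMod n) :
    residue R (ψ x) = residue R (ψ y) ↔ (2 ^ (s + 1)) • (x - y) = 0 := by
  have key : residue R (ψ x) = residue R (ψ y) ↔ residue R (ψ (x - y)) = 1 := by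
    have h1 : ψ x = ψ (x - y) * ψ y := by
      rw [← Gen.psi_add]
      congr 1
      abel
    have h3 : residue R (ψ y) ≠ 0 := ((isUnit_psi ψ y).map (residue R)).ne_zero
    rw [h1, map_mul]
    constructor
    · intro h
      have : residue R (ψ (x - y)) * residue R (ψ y) = 1 * residue R (ψ y) := by
        rw [h, one_mul]
      exact mul_right_cancel₀ h3 this
    · intro h
      rw [h, one_mul]
  rw [key]
  constructor
  · intro h
    obtain ⟨z, hz1, hz2⟩ := exists_odd s n' hn' hodd (x - y)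
    have h1 : ψ (x - y) = ψ (x - y - z) * ψ z := by
      rw [← Gen.psi_add]
      congr 1
      abel
    rw [h1, map_mul, residue_two_part h2 ψ s _ hz2, one_mul] at h
    have h4 := residue_odd_part h2 ψ hψ n' hodd z hz1 h
    rw [h4, sub_zero] at hz2
    exact hz2
  · intro h
    exact residue_two_part h2 ψ s _ h

include h2 hψ in
lemma residue_inj_odd (n' : ℕ) (hodd : Odd n') (x y : ZMod n) (hx : n' • x = 0)
    (hy : n' • y = 0) (h : residue R (ψ x) = residue R (ψ y)) : x = y := by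
  have h1 : ψ x = ψ (x - y) * ψ y := by
    rw [← Gen.psi_add]
    congr 1
    abel
  have h3 : residue R (ψ y) ≠ 0 := ((isUnit_psi ψ y).map (residue R)).ne_zero
  rw [h1, map_mul] at h
  have h4 : residue R (ψ (x - y)) * residue R (ψ y) = 1 * residue R (ψ y) := by
    rw [h, one_mul]
  exact sub_eq_zero.1 (residue_odd_part h2 ψ hψ n' hodd _ (by rw [smul_sub, hx, hy, sub_zero])
    (mul_right_cancel₀ h3 h4))

include h2 hψ in
/-- The fibres have even size if the polynomial is a square over the residue field. -/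
lemma even_fibre (s n' : ℕ) (hn' : n = 2 ^ (s + 1) * n') (hodd : Odd n') {k : ℕ}
    (b : Fin k → ZMod n) (D : (ResidueField R)[X])
    (hD : ∏ i, (X - C (residue R (ψ (b i)))) = D ^ 2) (y : ZMod n) :
    Even (univ.filter (fun l => (2 ^ (s + 1)) • (b l - y) = 0)).card := by
  classical
  have h1 : (∏ i, (X - C (residue R (ψ (b i))))).roots
      = (univ : Finset (Fin k)).val.map (fun i => residue R (ψ (b i))) := by
    have := Polynomial.roots_multiset_prod_X_sub_C
      ((univ : Finset (Fin k)).val.map (fun i => residue R (ψ (b i))))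
    rw [Multiset.map_map] at this
    exact this
  have h3 : (univ.filter (fun l => (2 ^ (s + 1)) • (b l - y) = 0)).card
      = (∏ i, (X - C (residue R (ψ (b i))))).rootMultiplicity (residue R (ψ y)) := by
    rw [← Polynomial.count_roots, h1, Multiset.count_map]
    rw [Finset.card_def, Finset.filter_val]
    congr 1
    refine Multiset.filter_congr (fun l _ => ?_)
    rw [← residue_eq_iff h2 ψ hψ s n' hn' hodd]
    exact eq_comm
  have hDne : D ≠ 0 := by
    rintro rfl
    have h5 : (∏ i, (X - C (residue R (ψ (b i))))).Monic :=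
      monic_prod_of_monic _ _ (fun i _ => monic_X_sub_C _)
    rw [hD] at h5
    simp at h5
  rw [h3, hD, ← Polynomial.count_roots, Polynomial.roots_pow, Multiset.count_nsmul]
  exact even_two_mul _

end Res

/-! ### The power sums in first order -/

/-- **C1, arithmetic part.** -/
theorem c1a {R : Type} [CommRing R] [IsDomain R] [IsLocalRing R] (h2 : (2 : R) ∈ maximalIdeal R)
    (h20 : (2 : R) ≠ 0) {n : ℕ} [NeZero n] (ψ : AddChar (ZMod n) R) (hψ : Function.Injective ψ)
    (hn : Even n) {k : ℕ} (b : Fin k → ZMod n) (hb : Function.Injective b)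
    (D : (ResidueField R)[X]) (hD : ∏ i, (X - C (residue R (ψ (b i)))) = D ^ 2)
    (hno : ¬ ∀ x ∈ univ.image b, x + ((n / 2 : ℕ) : ZMod n) ∈ univ.image b) :
    ∃ (Lam : Type) (_ : CommRing Lam) (_ : CharP Lam 2) (φ : R →+* Lam)
      (res : Lam →+* ResidueField R) (α : Lam) (I : Finset (ZMod n)),
      Function.Surjective φ ∧ (∀ x, res (φ x) = residue R x) ∧ (∀ x, α * x = 0 ↔ res x = 0) ∧
      α * α = 0 ∧ (∀ x, res x ≠ 0 → IsUnit x) ∧ I.Nonempty ∧
      (∀ i, Odd i → φ (∑ l, ψ (b l) ^ i) = α * φ (∑ y ∈ I, ψ y ^ i)) ∧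
      (∀ i, Even i → 0 < i → φ (∑ l, ψ (b l) ^ i) = 0) ∧
      Set.InjOn (fun y => residue R (ψ y)) I ∧
      ∀ y ∈ I, ∃ l, residue R (ψ (b l)) = residue R (ψ y) := by
  classical
  obtain ⟨s', n', hodd, hn'⟩ := Nat.exists_eq_two_pow_mul_odd (NeZero.ne n)
  obtain ⟨s, rfl⟩ : ∃ s, s' = s + 1 := by
    rcases s' with _ | s
    · exfalso
      rw [pow_zero, one_mul] at hn'
      rw [hn'] at hn
      exact (Nat.not_even_iff_odd.2 hodd) hn
    · exact ⟨s, rfl⟩
  have hhalf : n / 2 = n' * 2 ^ s := by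
    rw [hn', pow_succ]
    have : 2 ^ s * 2 * n' = 2 * (n' * 2 ^ s) := by ring
    rw [this, Nat.mul_div_cancel_left _ (by norm_num)]
  set θ : R := ψ ((n' : ℕ) : ZMod n) with hθdef
  have hθ : θ ^ (2 ^ s) = -1 := by
    rw [← psi_theta ψ n' (2 ^ s), ← hhalf, Gen.psi_half ψ hψ hn]
  set B := univ.image b with hB
  set c : ZMod n → ℤ[X] := fun y => cpoly s n' B y with hc
  have hlt : ∀ y, ord1 (c y) < 2 ^ s := fun y => ord1_lt _ _ (natDegree_cpoly s n' B y)
  -- some fibre is not invariant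
  set Cand := (oddEl n n').filter (fun y => cbar (c y) ≠ 0) with hCand
  have hCne : Cand.Nonempty := by
    push Not at hno
    obtain ⟨y0, hy0, hy0'⟩ := hno
    obtain ⟨y, hy1, hy2⟩ := exists_odd s n' hn' hodd y0
    obtain ⟨j, hj, hyj⟩ := Gen.kill_iff s n' hn' (y0 - y) hy2
    have hy0e : y0 = y + ((n' * j : ℕ) : ZMod n) := by rw [← hyj]; abel
    refine ⟨y, ?_⟩
    rw [hCand, Finset.mem_filter, mem_oddEl]
    refine ⟨hy1, fun h0 => ?_⟩
    have i1 : ind B y0 = 1 := by simp only [ind]; rw [if_pos hy0]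
    have i2 : ind B (y0 + ((n / 2 : ℕ) : ZMod n)) = 0 := by simp only [ind]; rw [if_neg hy0']
    have hcoef : ∀ i, i < 2 ^ s → (((c y).coeff i : ℤ) : ZMod 2) = 0 := by
      intro i _
      have := congrArg (fun p => p.coeff i) h0
      simpa [cbar, Polynomial.coeff_map] using this
    by_cases hjs : j < 2 ^ s
    · have h1 := hcoef j hjs
      rw [hc] at h1
      simp only at h1
      rw [coeff_cpoly s n' B y j hjs] at h1
      have e1 : y + ((n' * (2 ^ s + j) : ℕ) : ZMod n) = y0 + ((n / 2 : ℕ) : ZMod n) := by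
        rw [hy0e, hhalf]
        push_cast
        ring
      rw [← hy0e, e1, i1, i2] at h1
      simp at h1
    · push Not at hjs
      obtain ⟨i, rfl⟩ := Nat.exists_eq_add_of_le hjs
      have his : i < 2 ^ s := by
        have : 2 ^ (s + 1) = 2 ^ s + 2 ^ s := by rw [pow_succ]; ring
        omega
      have h1 := hcoef i his
      rw [hc] at h1
      simp only at h1
      rw [coeff_cpoly s n' B y i his] at h1
      have e1 : y + ((n' * i : ℕ) : ZMod n) = y0 + ((n / 2 : ℕ) : ZMod n) := by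
        have hz : (n' : ZMod n) * 2 ^ s + (n' : ZMod n) * 2 ^ s = 0 := by
          have h2 : ((n / 2 + n / 2 : ℕ) : ZMod n) = 0 := by
            have h3 : n / 2 + n / 2 = n := by obtain ⟨q, hq⟩ := hn; omega
            rw [h3, ZMod.natCast_self]
          rw [hhalf] at h2
          push_cast at h2
          exact h2
        rw [hy0e, hhalf]
        push_cast
        linear_combination -hz
      rw [← hy0e, e1, i1, i2] at h1
      simp at h1
  obtain ⟨y0, hy0, hmin⟩ := Finset.exists_min_image Cand (fun y => ord1 (c y)) hCne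
  set ν := ord1 (c y0) with hν
  have hν1 : 1 ≤ ν := by
    refine one_le_ord1 _ (Finset.mem_filter.1 hy0).2 ?_
    exact eval_one_cpoly s n' hn' b hb y0 (even_fibre h2 ψ hψ s n' hn' hodd b D hD y0)
  have hν2 : ν < 2 ^ s := hlt y0
  set I := Cand.filter (fun y => ord1 (c y) = ν) with hI
  have hθ1 : θ - 1 ≠ 0 := by
    intro h0
    obtain ⟨t, ht⟩ := two_eq s θ hθ
    rw [h0, zero_pow (by positivity), zero_mul] at ht
    exact h20 ht
  set ω : R := (θ - 1) ^ ν with hω
  have hω0 : ω ≠ 0 := pow_ne_zero _ hθ1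
  have hπ := pi_mem h2 s θ hθ
  set 𝔍 : Ideal R := Ideal.span {ω} * maximalIdeal R with h𝔍
  have hmem : ∀ x, x ∈ 𝔍 ↔ ∃ z ∈ maximalIdeal R, ω * z = x := fun x =>
    Ideal.mem_span_singleton_mul
  have hωx : ∀ x : R, ω * x ∈ 𝔍 ↔ x ∈ maximalIdeal R := by
    intro x
    rw [hmem]
    constructor
    · rintro ⟨z, hz, hzx⟩
      rw [← mul_left_cancel₀ hω0 hzx]
      exact hz
    · intro hx
      exact ⟨x, hx, rfl⟩
  have hle : 𝔍 ≤ maximalIdeal R := Ideal.mul_le_right
  have hωm : ω ∈ maximalIdeal R := Ideal.pow_mem_of_mem _ hπ _ (by omega)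
  have h2J : (2 : R) ∈ 𝔍 := by
    obtain ⟨m, hm, h⟩ := two_mem h2 s θ hθ ν hν2
    rw [h, hωx]
    exact hm
  have h1J : (1 : R) ∉ 𝔍 := by
    intro h
    exact (Ideal.ne_top_iff_one _).1 (IsLocalRing.maximalIdeal.isMaximal R).ne_top (hle h)
  have hchar : CharP (R ⧸ 𝔍) 2 := by
    refine CharTwo.of_one_ne_zero_of_two_eq_zero ?_ ?_
    · rw [← map_one (Ideal.Quotient.mk 𝔍), Ne, Ideal.Quotient.eq_zero_iff_mem]
      exact h1J
    · have : (2 : R ⧸ 𝔍) = Ideal.Quotient.mk 𝔍 2 := by rw [map_ofNat]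
      rw [this, Ideal.Quotient.eq_zero_iff_mem]
      exact h2J
  set φ := Ideal.Quotient.mk 𝔍 with hφ
  let res : R ⧸ 𝔍 →+* ResidueField R := Ideal.Quotient.lift 𝔍 (residue R) (fun a ha =>
    (IsLocalRing.residue_eq_zero_iff a).2 (hle ha))
  have hres : ∀ x, res (φ x) = residue R x := fun x => Ideal.Quotient.lift_mk _ _ _
  have hαx : ∀ x : R ⧸ 𝔍, φ ω * x = 0 ↔ res x = 0 := by
    intro x
    obtain ⟨x, rfl⟩ := Ideal.Quotient.mk_surjective x
    have e1 : φ ω * φ x = 0 ↔ x ∈ maximalIdeal R := by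
      rw [← map_mul, hφ, Ideal.Quotient.eq_zero_iff_mem, hωx]
    rw [← hφ, e1, hres, IsLocalRing.residue_eq_zero_iff]
  have hαα : φ ω * φ ω = 0 := by
    rw [hαx, hres, IsLocalRing.residue_eq_zero_iff]
    exact hωm
  have hoddP : ∀ i, Odd i → φ (∑ l, ψ (b l) ^ i) = φ ω * φ (∑ y ∈ I, ψ y ^ i) := by
    intro i hi
    rw [sum_decomp s n' hn' hodd b (fun z => ψ z ^ i)]
    have e1 : ∀ y ∈ oddEl n n',
        (∑ l, if (2 ^ (s + 1)) • (b l - y) = 0 then ψ (b l) ^ i else 0)
          = ψ y ^ i * aeval (θ ^ i) (c y) := fun y _ =>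
      coset_value ψ s n' hn' hθ b hb y i hi
    rw [Finset.sum_congr rfl e1, map_sum]
    have e2 : ∀ y ∈ oddEl n n', φ (ψ y ^ i * aeval (θ ^ i) (c y))
        = if y ∈ I then φ ω * φ (ψ y ^ i) else 0 := by
      intro y hy
      rw [map_mul]
      split_ifs with hyI
      · rw [hI, Finset.mem_filter, hCand, Finset.mem_filter] at hyI
        obtain ⟨m, hm, h⟩ := value_exact h2 s θ hθ (c y) (hlt y) hyI.1.2 i hi
        rw [h, hyI.2, ← hω, mul_add, mul_one, map_add]
        have : φ (ω * m) = 0 := by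
          rw [hφ, Ideal.Quotient.eq_zero_iff_mem, hωx]
          exact hm
        rw [this, add_zero, mul_comm]
      · have h' : cbar (c y) = 0 ∨ ν < ord1 (c y) := by
          by_cases h0 : cbar (c y) = 0
          · exact Or.inl h0
          · right
            have hyC : y ∈ Cand := by
              rw [hCand, Finset.mem_filter]
              exact ⟨hy, h0⟩
            refine lt_of_le_of_ne (hmin y hyC) (fun h => hyI ?_)
            rw [hI, Finset.mem_filter]
            exact ⟨hyC, h.symm⟩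
        obtain ⟨m, hm, h⟩ := value_large h2 s θ hθ (c y) ν hν2 h' i hi
        have : φ (aeval (θ ^ i) (c y)) = 0 := by
          rw [h, ← hω, hφ, Ideal.Quotient.eq_zero_iff_mem, hωx]
          exact hm
        rw [this, mul_zero]
    rw [Finset.sum_congr rfl e2, ← Finset.sum_filter]
    have e3 : (oddEl n n').filter (fun y => y ∈ I) = I := by
      ext y
      rw [Finset.mem_filter]
      constructor
      · exact fun h => h.2
      · intro h
        refine ⟨?_, h⟩
        rw [hI, Finset.mem_filter, hCand, Finset.mem_filter] at h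
        exact h.1.1
    rw [e3, map_sum, Finset.mul_sum]
  refine ⟨R ⧸ 𝔍, inferInstance, hchar, φ, res, φ ω, I, Ideal.Quotient.mk_surjective, hres, hαx,
    hαα, ?_, ?_, hoddP, ?_, ?_, ?_⟩
  · intro x hx
    obtain ⟨x, rfl⟩ := Ideal.Quotient.mk_surjective x
    rw [← hφ, hres] at hx
    rw [Ne, IsLocalRing.residue_eq_zero_iff, IsLocalRing.mem_maximalIdeal, mem_nonunits_iff,
      not_not] at hx
    exact hx.map φ
  · exact ⟨y0, by rw [hI, Finset.mem_filter]; exact ⟨hy0, rfl⟩⟩
  · intro i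
    induction i using Nat.strong_induction_on with
    | _ i ih =>
      intro hi hi0
      obtain ⟨j, hj⟩ := hi
      have hsq : φ (∑ l, ψ (b l) ^ i) = φ (∑ l, ψ (b l) ^ j) ^ 2 := by
        rw [map_sum, map_sum, CharTwo.sum_sq]
        refine Finset.sum_congr rfl (fun l _ => ?_)
        rw [map_pow, map_pow, ← pow_mul, hj]
        congr 1
        ring
      rcases Nat.even_or_odd j with hje | hjo
      · rw [hsq, ih j (by omega) hje (by omega)]
        ring
      · rw [hsq, hoddP j hjo, mul_pow, pow_two, hαα, zero_mul]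
  · intro y hy y' hy' h
    have m1 : ∀ z ∈ I, n' • z = 0 := by
      intro z hz
      rw [hI, Finset.mem_filter, hCand, Finset.mem_filter, mem_oddEl] at hz
      exact hz.1.1
    exact residue_inj_odd h2 ψ hψ n' hodd y y' (m1 y hy) (m1 y' hy') h
  · intro y hy
    rw [hI, Finset.mem_filter, hCand, Finset.mem_filter] at hy
    by_contra hcon
    push Not at hcon
    apply hy.1.2
    have hz : ∀ j : ℕ, ind B (y + ((n' * j : ℕ) : ZMod n)) = 0 := by
      intro j
      simp only [ind]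
      rw [if_neg]
      intro hmemB
      obtain ⟨l, _, hl⟩ := Finset.mem_image.1 hmemB
      apply hcon l
      rw [residue_eq_iff h2 ψ hψ s n' hn' hodd, hl]
      have : y + ((n' * j : ℕ) : ZMod n) - y = ((n' * j : ℕ) : ZMod n) := by abel
      rw [this, ← Nat.cast_smul_eq_nsmul (ZMod n), smul_eq_mul, ← Nat.cast_mul,
        ZMod.natCast_eq_zero_iff, hn']
      exact ⟨j, by ring⟩
    have : c y = 0 := by
      rw [hc]
      simp only [cpoly]
      refine Finset.sum_eq_zero (fun i _ => ?_)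
      rw [hz i, hz (2 ^ s + i), sub_zero, C_0, zero_mul]
    rw [this, cbar, Polynomial.map_zero]

end Pool.Agent.Helper73.SNC.C1
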