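import Pool.Agent.Helper10.CYC.OddDefs

/-!
# Reduction modulo a prime above 2

`st_b` : the T3 relations for algebraic integers give the relations `Rel` over an algebraically
closed field of characteristic 2.
-/

set_option autoImplicit false

namespace Pool.Agent.Helper73.SNC

open Finset Polynomial Pool.Agent.Helper10.CYC

/-- The ring of algebraic integers. -/
abbrev AI : Type := integralClosure ℤ ℂ

lemma two_not_unit : ¬ IsUnit (2 : AI) := by
  intro h
  obtain ⟨u, hu⟩ := h.exists_right_inv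
  have h1 : (2 : ℂ) * (u : ℂ) = 1 := by
    have := congrArg (algebraMap AI ℂ) hu
    rw [map_mul, map_ofNat, map_one] at this
    exact this
  have h2 : IsIntegral ℤ (u : ℂ) := u.2
  have h3 : (u : ℂ) = algebraMap ℚ ℂ (1 / 2) := by
    rw [map_div₀, map_one, map_ofNat]
    field_simp
    rw [mul_comm]; exact h1
  rw [h3] at h2
  have h4 : IsIntegral ℤ (1 / 2 : ℚ) :=
    (isIntegral_algebraMap_iff (algebraMap ℚ ℂ).injective).1 h2
  obtain ⟨z, hz⟩ := IsIntegrallyClosed.isIntegral_iff.1 h4
  have h5 : (z : ℚ) * 2 = 1 := by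
    rw [eq_div_iff (by norm_num)] at hz
    simpa using hz
  have h6 : z * 2 = 1 := by exact_mod_cast h5
  omega

/-- A maximal ideal above `2`. -/
lemma exists_max : ∃ M : Ideal AI, M.IsMaximal ∧ (2 : AI) ∈ M := by
  have h : Ideal.span {(2 : AI)} ≠ ⊤ := by
    rw [Ne, Ideal.span_singleton_eq_top]
    exact two_not_unit
  obtain ⟨M, hM, hle⟩ := Ideal.exists_le_maximal _ h
  exact ⟨M, hM, hle (Ideal.mem_span_singleton_self _)⟩

/-- Every monic polynomial of positive degree over the algebraic integers has a root. -/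
lemma exists_root_AI (P : AI[X]) (hP : P.Monic) (hd : P.natDegree ≠ 0) : ∃ z : AI, P.eval z = 0 := by
  have hm : (P.map (algebraMap AI ℂ)).Monic := hP.map _
  have hd' : (P.map (algebraMap AI ℂ)).degree ≠ 0 := by
    rw [hP.degree_map, Polynomial.degree_eq_natDegree hP.ne_zero]
    exact_mod_cast hd
  obtain ⟨z, hz⟩ := IsAlgClosed.exists_root _ hd'
  have hz' : Polynomial.eval₂ (algebraMap AI ℂ) z P = 0 := by
    rw [← Polynomial.eval_map]; exact hz
  have h1 : IsIntegral AI z := ⟨P, hP, hz'⟩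
  have h2 : IsIntegral ℤ z := isIntegral_trans z h1
  refine ⟨⟨z, h2⟩, ?_⟩
  have h3 : algebraMap AI ℂ (P.eval ⟨z, h2⟩) = 0 := by
    rw [← Polynomial.eval₂_at_apply]
    exact hz'
  exact (map_eq_zero_iff _ (FaithfulSMul.algebraMap_injective AI ℂ)).1 h3

lemma isAlgClosed_quot (M : Ideal AI) (hM : M.IsMaximal) :
    @IsAlgClosed (AI ⧸ M) (Ideal.Quotient.field M) := by
  let _ := Ideal.Quotient.field M
  refine IsAlgClosed.of_exists_root _ (fun p hp hirr => ?_)
  have hl : p ∈ Polynomial.lifts (Ideal.Quotient.mk M) := by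
    rw [Polynomial.mem_lifts]
    exact Polynomial.map_surjective _ Ideal.Quotient.mk_surjective p
  obtain ⟨P, hPp, hPd, hPm⟩ := Polynomial.lifts_and_natDegree_eq_and_monic hl hp
  obtain ⟨z, hz⟩ := exists_root_AI P hPm (by rw [hPd]; exact hirr.natDegree_pos.ne')
  refine ⟨Ideal.Quotient.mk M z, ?_⟩
  rw [← hPp, Polynomial.eval_map, Polynomial.eval₂_at_apply, hz, map_zero]

/-- The relation over the algebraic integers. -/
lemma rel_AI (h2 : ST_A2) {k b : ℕ} (u : Fin k → ℕ) (x : Fin k → AI) (hx : Function.Injective x)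
    (hW : ∀ σ : Equiv.Perm (Fin k), W b (fun i => ((x (σ i) : AI) : ℂ)) u = 0)
    (G : Fin k → AI[X]) :
    ∑ s ∈ univ.filter (fun s : Equiv.Perm (Fin k) => Good k b u s),
      dd (∏ i, (X - C (x i))) (fun j => G j * X ^ ((s j : Fin k) : ℕ)) = 0 := by
  have hV : (Matrix.vandermonde x).det ≠ 0 := Matrix.det_vandermonde_ne_zero_iff.2 hx
  have hW' : ∀ σ : Equiv.Perm (Fin k),
      ∑ s ∈ univ.filter (fun s : Equiv.Perm (Fin k) => Good k b u s),
        ∏ i, x (σ i) ^ (s i : ℕ) = 0 := by
    intro σ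
    apply FaithfulSMul.algebraMap_injective AI ℂ
    rw [map_zero, map_sum, ← hW σ, W]
    refine Finset.sum_congr rfl (fun s _ => ?_)
    rw [map_prod]
    refine Finset.prod_congr rfl (fun i _ => ?_)
    rw [map_pow]
    rfl
  have key : (Matrix.vandermonde x).det *
      ∑ s ∈ univ.filter (fun s : Equiv.Perm (Fin k) => Good k b u s),
        dd (∏ i, (X - C (x i))) (fun j => G j * X ^ ((s j : Fin k) : ℕ)) = 0 := by
    rw [Finset.mul_sum]
    have e1 : ∀ s ∈ univ.filter (fun s : Equiv.Perm (Fin k) => Good k b u s),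
        (Matrix.vandermonde x).det *
          dd (∏ i, (X - C (x i))) (fun j => G j * X ^ ((s j : Fin k) : ℕ))
        = ∑ σ : Equiv.Perm (Fin k), ((Equiv.Perm.sign σ : ℤ) : AI) *
            ((∏ i, (G i).eval (x (σ i))) * ∏ i, x (σ i) ^ (s i : ℕ)) := by
      intro s _
      rw [← h2 AI k x (fun j => G j * X ^ ((s j : Fin k) : ℕ)), Matrix.det_apply']
      refine Finset.sum_congr rfl (fun σ _ => ?_)
      rw [← Finset.prod_mul_distrib]
      congr 1
      refine Finset.prod_congr rfl (fun i _ => ?_)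
      simp
    rw [Finset.sum_congr rfl e1, Finset.sum_comm]
    refine Finset.sum_eq_zero (fun σ _ => ?_)
    rw [← Finset.mul_sum, ← Finset.mul_sum, hW' σ, mul_zero, mul_zero]
  exact (mul_eq_zero.1 key).resolve_left hV

/-- **B**: transfer of the relations to characteristic 2. -/
theorem st_b (h1 : ST_A1) (h2 : ST_A2) : ST_B := by
  obtain ⟨M, hM, h2M⟩ := exists_max
  let _ := Ideal.Quotient.field M
  have hchar : CharP (AI ⧸ M) 2 := by
    refine CharTwo.of_one_ne_zero_of_two_eq_zero one_ne_zero ?_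
    have : (2 : AI ⧸ M) = Ideal.Quotient.mk M 2 := by rw [map_ofNat]
    rw [this, Ideal.Quotient.eq_zero_iff_mem]
    exact h2M
  refine ⟨AI ⧸ M, Ideal.Quotient.field M, hchar, isAlgClosed_quot M hM, Ideal.Quotient.mk M, ?_⟩
  intro k b u x hx hW g
  have hg : ∀ j, ∃ G : AI[X], G.map (Ideal.Quotient.mk M) = g j := fun j =>
    Polynomial.map_surjective _ Ideal.Quotient.mk_surjective (g j)
  choose G hG using hg
  have h3 := congrArg (Ideal.Quotient.mk M) (rel_AI h2 u x hx hW G)
  rw [map_zero, map_sum] at h3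
  rw [← h3]
  refine Finset.sum_congr rfl (fun s _ => ?_)
  rw [h1 AI (AI ⧸ M) (Ideal.Quotient.mk M) k _ (monic_prod_of_monic _ _ fun i _ => monic_X_sub_C _)]
  congr 1
  · rw [Polynomial.map_prod]
    refine Finset.prod_congr rfl (fun i _ => ?_)
    simp
  · funext j
    rw [Polynomial.map_mul, hG, Polynomial.map_pow, Polynomial.map_X]

end Pool.Agent.Helper73.SNC
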