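import Pool.Agent.Helper73.SNC.Roots
import Pool.Agent.Helper73.SNC.Red

/-!
# The characters as algebraic integers
-/

set_option autoImplicit false

namespace Pool.Agent.Helper73.SNC

open Finset Polynomial

variable {n : ℕ} [NeZero n]

lemma isIntegral_chi (a : ZMod n) : IsIntegral ℤ (chi a) := by
  refine ⟨X ^ n - 1, monic_X_pow_sub_C 1 (NeZero.ne n), ?_⟩
  simp [chi_pow_card]

/-- `chi` with values in the algebraic integers. -/
noncomputable def chiAI (a : ZMod n) : AI := ⟨chi a, isIntegral_chi a⟩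

@[simp] lemma coe_chiAI (a : ZMod n) : ((chiAI a : AI) : ℂ) = chi a := rfl

lemma chiAI_inj : Function.Injective (chiAI : ZMod n → AI) := fun _ _ h =>
  chi_inj (congrArg (fun z : AI => (z : ℂ)) h)

lemma chiAI_zero : chiAI (0 : ZMod n) = 1 := Subtype.ext chi_zero

lemma chiAI_add (a b : ZMod n) : chiAI (a + b) = chiAI a * chiAI b := Subtype.ext (chi_add a b)

lemma chiAI_mul_neg (a : ZMod n) : chiAI a * chiAI (-a) = 1 := by
  rw [← chiAI_add, add_neg_cancel, chiAI_zero]

lemma isUnit_chiAI (a : ZMod n) : IsUnit (chiAI a) :=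
  IsUnit.of_mul_eq_one _ (chiAI_mul_neg a)

/-- The images of the characters in the residue field are non-zero. -/
lemma phi_chiAI_ne_zero {κ : Type} [Field κ] (φ : AI →+* κ) (a : ZMod n) : φ (chiAI a) ≠ 0 :=
  ((isUnit_chiAI a).map φ).ne_zero

end Pool.Agent.Helper73.SNC
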