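import Pool.Agent.Helper73.SNC.Val
import Pool.Agent.Helper73.SNC.Periodic
import Pool.Agent.Helper73.SNC.Roots2
import Pool.Agent.Helper7.CYC.OddAsm

/-!
# The relations modulo 2, and the case of a middle index

* `rel_ext`: a gap relation for a family of algebraic integers holds over every ring of the form
  `S`, where `R → S` is surjective and `R` is a domain containing the algebraic integers.
* `rel_AI2`, `rel_AI2T`: over the algebraic integers modulo 2, and over polynomials in one
  parameter over them.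
* `caseI`: even size `2 r`, no transversal, `e_{r-1}(A) ≠ 0`: the odd elementary symmetric
  functions of `B` are divisible by 2.
-/

set_option autoImplicit false

namespace Pool.Agent.Helper73.SNC

open Finset Polynomial Pool.Agent.Helper10.CYC Pool.Agent.Helper7.SN

/-- The gap relation over a quotient of an extension of the algebraic integers. -/
theorem rel_ext {R S : Type} [CommRing R] [IsDomain R] [CommRing S] (ι : AI →+* R)
    (hι : Function.Injective ι) (φ : R →+* S) (hφ : Function.Surjective φ) {k b : ℕ}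
    (u : Fin k → ℕ) (x : Fin k → AI) (hx : Function.Injective x)
    (hW : ∀ σ : Equiv.Perm (Fin k), W b (fun i => ((x (σ i) : AI) : ℂ)) u = 0) :
    Rel (∏ i, (X - C (φ (ι (x i))))) b u := by
  refine rel_quot φ hφ u (fun i => ι (x i)) (hι.comp hx) (fun σ => ?_)
  have h1 : ∑ s ∈ univ.filter (fun s : Equiv.Perm (Fin k) => Good k b u s),
      ∏ i, x (σ i) ^ (s i : ℕ) = 0 := by
    apply FaithfulSMul.algebraMap_injective AI ℂ
    rw [map_zero, map_sum, ← hW σ, W]
    refine Finset.sum_congr rfl (fun s _ => ?_)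
    rw [map_prod]
    refine Finset.prod_congr rfl (fun i _ => ?_)
    rw [map_pow]
    rfl
  rw [← map_zero ι, ← h1, map_sum]
  refine Finset.sum_congr rfl (fun s _ => ?_)
  rw [map_prod]
  refine Finset.prod_congr rfl (fun i _ => ?_)
  rw [map_pow]

/-- The algebraic integers modulo 2. -/
def AI2 : Type := AI ⧸ Ideal.span {(2 : AI)}

noncomputable instance commRing_AI2 : CommRing AI2 :=
  inferInstanceAs (CommRing (AI ⧸ Ideal.span {(2 : AI)}))

/-- Reduction modulo 2. -/
noncomputable def red2 : AI →+* AI2 := Ideal.Quotient.mk (Ideal.span {(2 : AI)})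

lemma red2_surj : Function.Surjective red2 := Ideal.Quotient.mk_surjective

lemma red2_eq_zero (z : AI) : red2 z = 0 ↔ (2 : AI) ∣ z := by
  have h : red2 z = 0 ↔ z ∈ Ideal.span {(2 : AI)} := Ideal.Quotient.eq_zero_iff_mem
  rw [h, Ideal.mem_span_singleton]

instance charP_AI2 : CharP AI2 2 := by
  refine CharTwo.of_one_ne_zero_of_two_eq_zero ?_ ?_
  · rw [← map_one red2, Ne, red2_eq_zero]
    intro h
    exact two_not_unit (isUnit_of_dvd_one h)
  · have : (2 : AI2) = red2 2 := by rw [map_ofNat]
    rw [this, red2_eq_zero]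

instance nontrivial_AI2 : Nontrivial AI2 :=
  CharP.nontrivial_of_char_ne_one (v := 2) (by norm_num)

/-- The gap relation modulo 2. -/
theorem rel_AI2 {k b : ℕ} (u : Fin k → ℕ) (x : Fin k → AI) (hx : Function.Injective x)
    (hW : ∀ σ : Equiv.Perm (Fin k), W b (fun i => ((x (σ i) : AI) : ℂ)) u = 0) :
    Rel (∏ i, (X - C (red2 (x i)))) b u :=
  rel_ext (RingHom.id AI) Function.injective_id red2 red2_surj u x hx hW

/-- The gap relation modulo 2 with a parameter. -/
theorem rel_AI2T {k b : ℕ} (u : Fin k → ℕ) (x : Fin k → AI) (hx : Function.Injective x)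
    (hW : ∀ σ : Equiv.Perm (Fin k), W b (fun i => ((x (σ i) : AI) : ℂ)) u = 0) :
    Rel (R := AI2[X]) (Polynomial.map C (∏ i, (X - C (red2 (x i))))) b u := by
  have hs : Function.Surjective (Polynomial.mapRingHom red2) := fun y =>
    Polynomial.map_surjective red2 red2_surj y
  have h := rel_ext (C : AI →+* AI[X]) C_injective (Polynomial.mapRingHom red2) hs u x hx hW
  have e : Polynomial.map (S := AI2[X]) C (∏ i, (X - C (red2 (x i))))
      = ∏ i, (X - C ((Polynomial.mapRingHom red2) (C (x i)))) := by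
    rw [Polynomial.map_prod]
    refine Finset.prod_congr rfl (fun i _ => ?_)
    simp
  rw [e]
  exact h

/-- The pure lemma: a monic polynomial of degree `2 r` with unit constant term, whose T1
determinants with `r - 1` labels vanish over `R[T]`, has no odd coefficients. -/
def ST_OddCoeff : Prop := ∀ {R : Type} [CommRing R] [CharP R 2] (r : ℕ) (_ : 1 ≤ r) (f : R[X])
  (_ : f.Monic) (_ : f.natDegree = 2 * r) (_ : IsUnit (f.coeff 0))
  (_ : ∀ G : R[X][X], dd (f.map C) (col1 (2 * r) (r - 1) G) = 0), ∀ i, Odd i → f.coeff i = 0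

variable {n : ℕ} [NeZero n]

lemma W_zero_AI {k : ℕ} {A B : Finset (ZMod n)} (h : ¬ Tr A B) (a b : Fin k → ZMod n)
    (ha : Function.Injective a) (hb : Function.Injective b) (hA : univ.image a = A)
    (hB : univ.image b = B) (bb : ℕ) (hb0 : 0 < bb) (hbk : bb ≤ k) (u : Fin k → ℕ)
    (hu : ∑ i, u i = bb) (hne : es (fun i => chi (a i)) bb ≠ 0)
    (he : ∀ i, (supp u).card ≤ i → i < bb → es (fun i => chi (a i)) i = 0)
    (σ : Equiv.Perm (Fin k)) :
    W bb (fun i => ((chiAI (b (σ i)) : AI) : ℂ)) u = 0 :=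
  Helper7.CYC.W_zero h a b ha hb hA hB bb hb0 hbk u hu hne he σ

/-- The coefficients of the polynomial with roots `y`. -/
lemma coeff_prod_root {R : Type*} [CommRing R] {k : ℕ} (y : Fin k → R) (j : ℕ) (hj : j ≤ k) :
    (∏ i, (X - C (y i))).coeff j = (-1) ^ (k - j) * SNC.es y (k - j) := by
  have h1 := Multiset.prod_X_sub_C_coeff ((Finset.univ : Finset (Fin k)).val.map y) (k := j)
    (by rw [Multiset.card_map, Finset.card_val, Finset.card_univ, Fintype.card_fin]; exact hj)
  rw [Multiset.map_map, Multiset.card_map, Finset.card_val, Finset.card_univ, Fintype.card_fin,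
    ← SNC.es_eq_esymm] at h1
  rw [← h1]
  rfl

lemma map_es {R S : Type*} [CommRing R] [CommRing S] (φ : R →+* S) {k : ℕ} (y : Fin k → R)
    (j : ℕ) : φ (SNC.es y j) = SNC.es (fun i => φ (y i)) j := by
  rw [SNC.es, SNC.es, map_sum]
  refine Finset.sum_congr rfl (fun S _ => ?_)
  rw [map_prod]

/-- **Case of a middle index, one side.** -/
theorem caseI (hC : ST_C) (hO : ST_OddCoeff) {r : ℕ} (hr : 2 ≤ r) {A B : Finset (ZMod n)}
    (h : ¬ Tr A B) (a b : Fin (2 * r) → ZMod n) (ha : Function.Injective a)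
    (hb : Function.Injective b) (hA : univ.image a = A) (hB : univ.image b = B)
    (hne : SNC.es (fun i => chi (a i)) (r - 1) ≠ 0) :
    ∀ j, Odd j → (2 : AI) ∣ SNC.es (fun i => chiAI (b i)) j := by
  have hrel := rel_AI2T (u1 (2 * r) (r - 1)) (fun i => chiAI (b i)) (chiAI_inj.comp hb)
    (fun σ => W_zero_AI h a b ha hb hA hB (r - 1) (by omega) (by omega) (u1 (2 * r) (r - 1))
      (Helper7.CYC.sum_u1 _ _ (by omega)) hne
      (fun i hi1 hi2 => by
        rw [Helper7.CYC.supp_u1, Helper7.CYC.card_lt_filter _ _ (by omega)] at hi1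
        omega) σ)
  set f : AI2[X] := ∏ i, (X - C (red2 (chiAI (b i)))) with hf
  have hfm : f.Monic := monic_prod_of_monic _ _ (fun i _ => monic_X_sub_C _)
  have hfd : f.natDegree = 2 * r := by
    rw [hf, natDegree_prod_of_monic _ _ (fun i _ => monic_X_sub_C _)]
    simp
  have hf0 : IsUnit (f.coeff 0) := by
    rw [coeff_zero_eq_eval_zero, hf, Polynomial.eval_prod]
    refine IsUnit.prod_univ_iff.2 (fun i => ?_)
    rw [eval_sub, eval_X, eval_C, zero_sub, IsUnit.neg_iff]
    exact (isUnit_chiAI _).map red2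
  have h1 := hO r (by omega) f hfm hfd hf0 (fun G => hC _ (2 * r) (r - 1) (by omega) _ hrel G)
  intro j hj
  by_cases hjk : j ≤ 2 * r
  · rw [← red2_eq_zero, map_es]
    have h2 : f.coeff (2 * r - j) = 0 := h1 _ (by
      obtain ⟨q, hq⟩ := hj
      exact ⟨r - q - 1, by omega⟩)
    rw [hf, coeff_prod_root _ _ (by omega)] at h2
    have h3 : 2 * r - (2 * r - j) = j := by omega
    rw [h3] at h2
    have h4 : IsUnit ((-1 : AI2) ^ j) := (isUnit_one.neg).pow j
    exact (h4.mul_right_eq_zero).1 h2
  · rw [SNC.es_of_lt _ (by rw [Fintype.card_fin]; omega)]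
    exact dvd_zero _

/-- **Case of a middle index on both sides.** -/
theorem caseI_tr (hC : ST_C) (hO : ST_OddCoeff) {r : ℕ} (hr : 2 ≤ r) (hn : Even n)
    {A B : Finset (ZMod n)} (a b : Fin (2 * r) → ZMod n) (ha : Function.Injective a)
    (hb : Function.Injective b) (hA : univ.image a = A) (hB : univ.image b = B)
    (hneA : SNC.es (fun i => chi (a i)) (r - 1) ≠ 0)
    (hneB : SNC.es (fun i => chi (b i)) (r - 1) ≠ 0) : Tr A B ∨ CosPair A B := by
  by_cases h : Tr A B
  · exact Or.inl h
  · have h' : ¬ Tr B A := fun h1 => h h1.symm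
    exact tr_or_cosPair_of_odd_es hn a b ha hb hA hB
      (caseI hC hO hr h' b a hb ha hB hA hneB) (caseI hC hO hr h a b ha hb hA hB hneA)

end Pool.Agent.Helper73.SNC
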