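import Pool.Agent.Helper73.SNC.EvenAsm
import Pool.Agent.Helper42.CYC.StmtsC

/-!
# The gap statement from the two pieces of track C
-/

set_option autoImplicit false

namespace Pool.Agent.Helper73.SNC

open Finset Polynomial Pool.Agent.Helper10.CYC Pool.Agent.Helper7.SN Pool.Agent.Helper42.CYC
open IsLocalRing (ResidueField residue)

/-- The algebraic integers in a valuation subring. -/
noncomputable def inclV (V : ValuationSubring ℂ) : AI →+* V where
  toFun z := ⟨(z : ℂ), mem_V_of_isIntegral V z.2⟩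
  map_one' := rfl
  map_mul' _ _ := rfl
  map_zero' := rfl
  map_add' _ _ := rfl

lemma inclV_inj (V : ValuationSubring ℂ) : Function.Injective (inclV V) := fun x y h =>
  Subtype.ext (congrArg (fun z : V => (z : ℂ)) h)

variable {n : ℕ} [NeZero n]

lemma inclV_ichi (V : ValuationSubring ℂ) (a : ZMod n) :
    inclV V (Helper7.CYC.ichi a) = psiV V a := rfl

/-- A relation over a quotient of `V`. -/
lemma rel_V (V : ValuationSubring ℂ) {S : Type} [CommRing S] (φ : V →+* S)
    (hφ : Function.Surjective φ) {k : ℕ} {A B : Finset (ZMod n)} (h : ¬ Tr A B)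
    (a b : Fin k → ZMod n) (ha : Function.Injective a) (hb : Function.Injective b)
    (hA : univ.image a = A) (hB : univ.image b = B) (bb : ℕ) (hb0 : 0 < bb) (hbk : bb ≤ k)
    (u : Fin k → ℕ) (hu : ∑ i, u i = bb) (hne : SNC.es (fun i => chi (a i)) bb ≠ 0)
    (he : ∀ i, (supp u).card ≤ i → i < bb → SNC.es (fun i => chi (a i)) i = 0) :
    Rel (∏ i, (X - C (φ (psiV V (b i))))) bb u := by
  refine rel_quot_V V φ hφ u (fun i => psiV V (b i)) ((psiV_inj V).comp hb) (fun σ => ?_)
  exact W_zero_AI h a b ha hb hA hB bb hb0 hbk u hu hne he σ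

/-- The reduction of `B` is a square if `A` is not a coset. -/
lemma square_V (V : ValuationSubring ℂ) (hV : ¬ IsUnit (2 : V)) {k : ℕ} {A B : Finset (ZMod n)}
    (h : ¬ Tr A B) (a b : Fin k → ZMod n) (ha : Function.Injective a)
    (hb : Function.Injective b) (hA : univ.image a = A) (hB : univ.image b = B)
    (hcos : ¬ IsCos k A) :
    ∃ D : (ResidueField V)[X], ∏ i, (X - C (residue V (psiV V (b i)))) = D ^ 2 := by
  have := charP_res V hV
  obtain ⟨D, _, _, _, hf⟩ := Helper7.CYC.square_of_not_coset Helper91.CYC.st_a5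
    Helper10.CYC.st_c Helper10.CYC.st_d Helper91.CYC.st_e Helper47.CYC.st_f Helper75.CYC.st_g
    ((residue V).comp (inclV V)) (fun k b u x hx hW =>
      rel_quot_V V (residue V) IsLocalRing.residue_surjective u (fun i => inclV V (x i))
        ((inclV_inj V).comp hx) hW) h a b ha hb hA hB hcos
  exact ⟨D, hf⟩

/-- **The gap statement.** -/
theorem st_gap_of (hAr : ST_ARITH) (hCo : ST_CORE) : ST_Gap := by
  intro n _ r m A B a b hn h hcos ha hb hA hB hm0 hmr hem hem2 hgap hno _
  obtain ⟨V, hV⟩ := exists_V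
  have hch := charP_res V hV
  obtain ⟨D, hD⟩ := square_V V hV h a b ha hb hA hB hcos
  obtain ⟨Lam, i1, i2, φ, red, α, S, g, Vt, p, Mi, hφ, hred, hα, hunit, hFO, h0, hp, hMV, hMne,
    hS, hg⟩ := hAr V hV n hn r b hb ⟨D, hD⟩ (by rw [hB]; exact hno)
  have hredS : Function.Surjective red := by
    intro y
    obtain ⟨x, rfl⟩ := IsLocalRing.residue_surjective (R := V) y
    exact ⟨φ x, hred x⟩
  refine (hCo Lam (ResidueField V) red α r (by omega) S g _ hredS hα hunit hFO Vt p Mi h0 hp hMV
    hMne hS hg).2 (r - m + 1) (by omega) (by omega) ⟨?_, ?_⟩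
  · intro z hz
    have e : r - 1 + (r - m + 1) = 2 * r - m := by omega
    refine rel_V V φ hφ h a b ha hb hA hB _ (by omega) (by omega) _
      (Helper7.CYC.sum_u2 _ _ _ z hz) (by rw [e]; exact hem2) ?_
    intro i hi1 hi2
    rw [Helper7.CYC.card_supp_u2 _ _ _ z hz (by omega)] at hi1
    exact hgap i (by omega) (by omega)
  · intro z hz
    have e : r + (r - m + 1 - 1) = 2 * r - m := by omega
    refine rel_V V φ hφ h a b ha hb hA hB _ (by omega) (by omega) _
      (Helper7.CYC.sum_u2 _ _ _ z hz) (by rw [e]; exact hem2) ?_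
    intro i hi1 hi2
    rw [Helper7.CYC.card_supp_u2 _ _ _ z hz (by omega)] at hi1
    exact hgap i (by omega) (by omega)

end Pool.Agent.Helper73.SNC
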