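import Pool.Agent.Helper73.SNC.Periodic

/-!
# Odd elementary symmetric functions divisible by 2 force periodicity

If all `e_j` with `j` odd of a set `B` of `n`-th roots of unity, `n` even, are divisible by 2 in
some domain `R` of characteristic 0 (more precisely `2 ≠ 0`) in which `2` is not a unit, then `B`
is invariant under multiplication by `-1`.
-/

set_option autoImplicit false
set_option linter.unusedSectionVars false

namespace Pool.Agent.Helper73.SNC.Gen

open Finset Polynomial Pool.Agent.Helper7.SN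

variable {R : Type*} [CommRing R] [IsDomain R]

/-! ### Evenness of coefficients -/

lemma one_sub_dvd (x : R) (m : ℕ) : (1 - x) ∣ (1 - x ^ m) := by
  simpa using sub_dvd_pow_sub_pow (1 : R) x m

lemma pow_dvd_two (s : ℕ) (θ : R) (hθ : θ ^ (2 ^ s) = -1) : (1 - θ) ^ (2 ^ s) ∣ (2 : R) := by
  have h : ∀ i, i ≤ s → (1 - θ) ^ (2 ^ i) ∣ 1 - θ ^ (2 ^ i) := by
    intro i
    induction i with
    | zero => intro _; simp
    | succ i ih =>
      intro hi
      have h1 := ih (by omega)
      have e1 : (1 - θ) ^ (2 ^ (i + 1)) = (1 - θ) ^ (2 ^ i) * (1 - θ) ^ (2 ^ i) := by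
        rw [← pow_add]; congr 1; rw [pow_succ]; ring
      have e2 : 1 - θ ^ (2 ^ (i + 1)) = (1 - θ ^ (2 ^ i)) * (1 + θ ^ (2 ^ i)) := by
        have : θ ^ (2 ^ (i + 1)) = θ ^ (2 ^ i) * θ ^ (2 ^ i) := by
          rw [← pow_add]; congr 1; rw [pow_succ]; ring
        rw [this]; ring
      have e3 : 1 + θ ^ (2 ^ i) = 1 - (θ ^ (2 ^ i)) ^ (1 + 2 ^ (s - i)) := by
        have : (θ ^ (2 ^ i)) ^ (1 + 2 ^ (s - i)) = θ ^ (2 ^ i) * θ ^ (2 ^ s) := by
          rw [← pow_mul, ← pow_add]
          congr 1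
          have : 2 ^ s = 2 ^ i * 2 ^ (s - i) := by rw [← pow_add]; congr 1; omega
          rw [this]; ring
        rw [this, hθ]; ring
      rw [e1, e2]
      refine mul_dvd_mul h1 (h1.trans ?_)
      rw [e3]
      exact one_sub_dvd _ _
  have h2 := h s le_rfl
  rw [hθ] at h2
  have h3 : (1 : R) - -1 = 2 := by ring
  rwa [h3] at h2

/-- The key lemma: integer combinations of the powers `θ ^ i`, `i < 2 ^ s`, divisible by 2. -/
lemma even_coeff (hu2 : ¬ IsUnit (2 : R)) (h20 : (2 : R) ≠ 0) (s : ℕ) (θ : R) (hθ : θ ^ (2 ^ s) = -1) (c : ℤ[X]) (hdeg : c.natDegree < 2 ^ s)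
    (h : (2 : R) ∣ aeval θ c) : c.map (Int.castRingHom (ZMod 2)) = 0 := by
  by_contra hne
  obtain ⟨M, hM, h2M⟩ : ∃ M : Ideal R, M.IsMaximal ∧ (2 : R) ∈ M := by
    have h : Ideal.span {(2 : R)} ≠ ⊤ := by
      rw [Ne, Ideal.span_singleton_eq_top]
      exact hu2
    obtain ⟨M, hM, hle⟩ := Ideal.exists_le_maximal _ h
    exact ⟨M, hM, hle (Ideal.mem_span_singleton_self _)⟩
  let _ := Ideal.Quotient.field M
  have hchar : CharP (R ⧸ M) 2 := by
    refine CharTwo.of_one_ne_zero_of_two_eq_zero one_ne_zero ?_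
    have : (2 : R ⧸ M) = Ideal.Quotient.mk M 2 := by rw [map_ofNat]
    rw [this, Ideal.Quotient.eq_zero_iff_mem]
    exact h2M
  set φ : R →+* R ⧸ M := Ideal.Quotient.mk M with hφ
  have hφθ : φ θ = 1 := by
    have h1 : (φ θ) ^ (2 ^ s) = 1 := by
      rw [← map_pow, hθ, map_neg, map_one, CharTwo.neg_eq]
    have h2 : (φ θ - 1) ^ (2 ^ s) = 0 := by
      rw [sub_pow_char_pow, h1, one_pow, sub_self]
    exact sub_eq_zero.1 (pow_eq_zero_iff (by positivity) |>.1 h2)
  have hθ1 : (1 : R) - θ ≠ 0 := by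
    intro h0
    have : θ = 1 := (sub_eq_zero.1 h0).symm
    rw [this, one_pow] at hθ
    have h2 : (2 : R) = 0 := by
      have : (1 : R) + 1 = 0 := by nth_rewrite 1 [hθ]; ring
      rw [← this]; ring
    exact h20 h2
  set cb := c.map (Int.castRingHom (ZMod 2)) with hcb
  set v := cb.rootMultiplicity 1 with hv
  have hvd : v < 2 ^ s := by
    have h1 : v ≤ cb.natDegree := by
      rw [hv, ← Polynomial.count_roots]
      exact (Multiset.count_le_card _ _).trans (Polynomial.card_roots' cb)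
    have h2 : cb.natDegree ≤ c.natDegree := Polynomial.natDegree_map_le
    omega
  obtain ⟨ub, hub, hub1⟩ := Polynomial.exists_eq_pow_rootMultiplicity_mul_and_not_dvd cb hne 1
  have hub2 : ub.eval 1 ≠ 0 := fun h0 => hub1 (Polynomial.dvd_iff_isRoot.2 h0)
  obtain ⟨u, hu⟩ := Polynomial.map_surjective (Int.castRingHom (ZMod 2))
    ZMod.intCast_surjective ub
  -- `c = (X - 1)^v u + 2 w`
  have h3 : (c - (X - 1) ^ v * u).map (Int.castRingHom (ZMod 2)) = 0 := by
    rw [Polynomial.map_sub, Polynomial.map_mul, Polynomial.map_pow, Polynomial.map_sub,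
      Polynomial.map_X, Polynomial.map_one, hu, ← hcb, sub_eq_zero]
    rw [← C_1]
    exact hub
  have h4 : (C 2 : ℤ[X]) ∣ c - (X - 1) ^ v * u := by
    rw [Polynomial.C_dvd_iff_dvd_coeff]
    intro i
    have := congrArg (fun p => p.coeff i) h3
    simp only [Polynomial.coeff_map, Polynomial.coeff_zero, eq_intCast] at this
    exact (ZMod.intCast_zmod_eq_zero_iff_dvd _ 2).1 this
  obtain ⟨w, hw⟩ := h4
  have h5 : aeval θ c = (θ - 1) ^ v * aeval θ u + 2 * aeval θ w := by
    have : c = (X - 1) ^ v * u + C 2 * w := by rw [← hw]; ring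
    rw [this]
    simp only [map_add, map_mul, map_pow, map_sub, map_one, aeval_X, map_ofNat]
  have h6 : (2 : R) ∣ (θ - 1) ^ v * aeval θ u := by
    have h7 : (θ - 1) ^ v * aeval θ u = aeval θ c - 2 * aeval θ w := by rw [h5]; ring
    rw [h7]
    exact dvd_sub h (Dvd.intro _ rfl)
  have h8 : (1 - θ) ^ (2 ^ s) ∣ (1 - θ) ^ v * aeval θ u := by
    refine (pow_dvd_two s θ hθ).trans ?_
    have : (1 - θ) ^ v * aeval θ u = (-1) ^ v * ((θ - 1) ^ v * aeval θ u) := by
      rw [← mul_assoc, ← mul_pow]; congr 2; ring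
    rw [this]
    exact Dvd.dvd.mul_left h6 _
  have h9 : (1 - θ) ∣ aeval θ u := by
    have e : (1 - θ) ^ (2 ^ s) = (1 - θ) ^ v * (1 - θ) ^ (2 ^ s - v) := by
      rw [← pow_add]; congr 1; omega
    rw [e] at h8
    have h10 := (mul_dvd_mul_iff_left (pow_ne_zero v hθ1)).1 h8
    exact (dvd_pow_self _ (by omega)).trans h10
  have h11 : φ (aeval θ u) = 0 := by
    obtain ⟨z, hz⟩ := h9
    rw [hz, map_mul, map_sub, map_one, hφθ, sub_self, zero_mul]
  -- compare with `ub.eval 1`
  have h12 : φ (aeval θ u) = ((u.eval 1 : ℤ) : R ⧸ M) := by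
    rw [Polynomial.aeval_def, Polynomial.hom_eval₂, hφθ]
    have : (φ.comp (algebraMap ℤ R)) = Int.castRingHom (R ⧸ M) := RingHom.ext_int _ _
    rw [this]
    have h13 := Polynomial.eval₂_at_intCast (p := u) (Int.castRingHom (R ⧸ M)) 1
    simp only [Int.cast_one, eq_intCast] at h13
    exact h13
  rw [h12, CharP.intCast_eq_zero_iff (R ⧸ M) 2] at h11
  apply hub2
  rw [← hu]
  have h14 : (u.map (Int.castRingHom (ZMod 2))).eval 1 = ((u.eval 1 : ℤ) : ZMod 2) := by
    have := Polynomial.eval_intCast_map (Int.castRingHom (ZMod 2)) u 1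
    simp only [Int.cast_one, eq_intCast] at this
    exact this
  rw [h14]
  exact (ZMod.intCast_zmod_eq_zero_iff_dvd _ 2).2 (by exact_mod_cast h11)

/-! ### The Fourier step -/

section Fourier

variable {n : ℕ} [NeZero n] (ψ : AddChar (ZMod n) R) (hψ : Function.Injective ψ)

include hψ in
lemma psi_inj {a b : ZMod n} (h : ψ a = ψ b) : a = b := hψ h

lemma psi_nsmul (m : ℕ) (a : ZMod n) : ψ (m • a) = ψ a ^ m := AddChar.map_nsmul_eq_pow ψ m a

lemma psi_add (a b : ZMod n) : ψ (a + b) = ψ a * ψ b := AddChar.map_add_eq_mul ψ a b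

lemma psi_zero : ψ 0 = 1 := AddChar.map_zero_eq_one ψ

lemma half_ne_zero (hn : Even n) : ((n / 2 : ℕ) : ZMod n) ≠ 0 := by
  have h0 : 0 < n := Nat.pos_of_ne_zero (NeZero.ne n)
  rw [Ne, ZMod.natCast_eq_zero_iff]
  intro h
  have h1 := Nat.le_of_dvd (by obtain ⟨q, hq⟩ := hn; omega) h
  omega

include hψ in
lemma psi_half (hn : Even n) : ψ ((n / 2 : ℕ) : ZMod n) = -1 := by
  set x := ψ ((n / 2 : ℕ) : ZMod n) with hx
  have h1 : x * x = 1 := by
    rw [hx, ← psi_add, ← psi_zero ψ]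
    congr 1
    have : ((n / 2 : ℕ) : ZMod n) + ((n / 2 : ℕ) : ZMod n) = ((n / 2 + n / 2 : ℕ) : ZMod n) := by
      push_cast; ring
    rw [this]
    have h2 : n / 2 + n / 2 = n := by obtain ⟨q, hq⟩ := hn; omega
    rw [h2, ZMod.natCast_self]
  have h2 : x ≠ 1 := by
    intro h
    rw [hx, ← psi_zero ψ] at h
    exact half_ne_zero hn (hψ h)
  have h3 : (x - 1) * (x + 1) = 0 := by
    have : (x - 1) * (x + 1) = x * x - 1 := by ring
    rw [this, h1, sub_self]
  rcases mul_eq_zero.1 h3 with h | h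
  · exact absurd (sub_eq_zero.1 h) h2
  · exact eq_neg_of_add_eq_zero_left h

include hψ in
/-- The geometric sum over the odd part. -/
lemma geom (s n' : ℕ) (hn' : n = 2 ^ (s + 1) * n') (z : ZMod n) :
    ∑ i ∈ range n', (ψ z ^ (2 ^ (s + 1))) ^ i
      = if (2 ^ (s + 1)) • z = 0 then (n' : R) else 0 := by
  split_ifs with h
  · rw [← psi_nsmul, h, psi_zero]
    simp
  · set q := ψ z ^ (2 ^ (s + 1)) with hq
    have h1 : q ≠ 1 := by
      intro h1
      apply h
      apply hψ
      rw [psi_nsmul, ← hq, h1, psi_zero]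
    have h2 : q ^ n' = 1 := by
      rw [hq, ← pow_mul, ← hn', ← psi_nsmul]
      have : n • z = 0 := by rw [nsmul_eq_mul, ZMod.natCast_self, zero_mul]
      rw [this, psi_zero]
    have h3 := geom_sum_mul q n'
    rw [h2, sub_self] at h3
    exact (mul_eq_zero.1 h3).resolve_right (sub_ne_zero.2 h1)

lemma two_dvd_of_odd_mul (m : ℕ) (hm : Odd m) (g : R) (h : (2 : R) ∣ (m : R) * g) :
    (2 : R) ∣ g := by
  obtain ⟨q, hq⟩ := hm
  have : g = (m : R) * g - 2 * (q * g) := by
    rw [hq]; push_cast; ring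
  rw [this]
  exact dvd_sub h (Dvd.intro _ rfl)

/-- Listing the elements killed by the power of two. -/
lemma kill_iff (s n' : ℕ) (hn' : n = 2 ^ (s + 1) * n') (z : ZMod n)
    (h : (2 ^ (s + 1)) • z = 0) : ∃ j, j < 2 ^ (s + 1) ∧ z = ((n' * j : ℕ) : ZMod n) := by
  have hn0 : 0 < n := Nat.pos_of_ne_zero (NeZero.ne n)
  have hn'0 : 0 < n' := by
    rcases Nat.eq_zero_or_pos n' with h0 | h0
    · rw [h0] at hn'; omega
    · exact h0
  have h1 : ((2 ^ (s + 1) * z.val : ℕ) : ZMod n) = 0 := by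
    push_cast
    rw [ZMod.natCast_zmod_val]
    rw [nsmul_eq_mul] at h
    push_cast at h
    exact h
  rw [ZMod.natCast_eq_zero_iff] at h1
  have h2 : n' ∣ z.val := by
    have h3 : 2 ^ (s + 1) * n' ∣ 2 ^ (s + 1) * z.val := by rw [← hn']; exact h1
    exact Nat.dvd_of_mul_dvd_mul_left (by positivity) h3
  obtain ⟨j, hj⟩ := h2
  refine ⟨j, ?_, ?_⟩
  · have h4 := z.val_lt
    by_contra hcon
    push Not at hcon
    have : n ≤ z.val := by
      rw [hj, hn', mul_comm (2 ^ (s + 1)) n']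
      exact Nat.mul_le_mul_left _ hcon
    omega
  · rw [← hj, ZMod.natCast_zmod_val]

include hψ in
/-- The Fourier step: the part of the sum on a coset of the Sylow 2-subgroup. -/
lemma two_dvd_coset {k : ℕ} (s n' : ℕ) (hn' : n = 2 ^ (s + 1) * n') (hodd : Odd n')
    (a : Fin k → ZMod n) (hp : ∀ j, 0 < j → (2 : R) ∣ ∑ i, ψ (a i) ^ j) (y : ZMod n) :
    (2 : R) ∣ ∑ l, if (2 ^ (s + 1)) • (a l - y) = 0 then ψ (a l - y) else 0 := by
  apply two_dvd_of_odd_mul n' hodd
  have h1 : (n' : R) * (∑ l, if (2 ^ (s + 1)) • (a l - y) = 0 then ψ (a l - y) else 0)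
      = ∑ i ∈ range n', ψ (-((1 + 2 ^ (s + 1) * i) • y)) *
          ∑ l, ψ (a l) ^ (1 + 2 ^ (s + 1) * i) := by
    have h2 : ∀ i ∈ range n', ψ (-((1 + 2 ^ (s + 1) * i) • y)) *
          ∑ l, ψ (a l) ^ (1 + 2 ^ (s + 1) * i)
        = ∑ l, ψ (a l - y) * (ψ (a l - y) ^ (2 ^ (s + 1))) ^ i := by
      intro i _
      rw [Finset.mul_sum]
      refine Finset.sum_congr rfl (fun l _ => ?_)
      rw [← pow_mul, ← pow_succ', add_comm (2 ^ (s + 1) * i) 1, ← psi_nsmul, ← psi_nsmul,
        ← psi_add, smul_sub]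
      congr 1
      abel
    rw [Finset.sum_congr rfl h2, Finset.sum_comm, Finset.mul_sum]
    refine Finset.sum_congr rfl (fun l _ => ?_)
    rw [← Finset.mul_sum, geom ψ hψ s n' hn']
    split_ifs
    · ring
    · ring
  rw [h1]
  exact Finset.dvd_sum (fun i _ => Dvd.dvd.mul_left (hp _ (by omega)) _)

/-- Rewriting the coset sum as a polynomial in a primitive root of unity of order a power of 2. -/
lemma coset_sum_eq {k : ℕ} (s n' : ℕ) (hn' : n = 2 ^ (s + 1) * n')
    (a : Fin k → ZMod n) (ha : Function.Injective a) (y : ZMod n) :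
    (∑ l, if (2 ^ (s + 1)) • (a l - y) = 0 then ψ (a l - y) else 0)
      = ∑ j ∈ range (2 ^ (s + 1)),
          (if y + ((n' * j : ℕ) : ZMod n) ∈ univ.image a then 1 else 0)
            * ψ ((n' * j : ℕ) : ZMod n) := by
  classical
  have hn0 : 0 < n := Nat.pos_of_ne_zero (NeZero.ne n)
  have hn'0 : 0 < n' := by
    rcases Nat.eq_zero_or_pos n' with h0 | h0
    · rw [h0] at hn'; omega
    · exact h0
  have hind : ∀ x : ZMod n, (if x ∈ univ.image a then (1 : R) else 0)
      = ∑ l, if a l = x then 1 else 0 := by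
    intro x
    split_ifs with h
    · obtain ⟨l0, _, hl0⟩ := Finset.mem_image.1 h
      rw [Finset.sum_eq_single l0]
      · rw [if_pos hl0]
      · intro l _ hl
        rw [if_neg]
        intro h'
        exact hl (ha (h'.trans hl0.symm))
      · intro h'; exact absurd (Finset.mem_univ _) h'
    · symm
      refine Finset.sum_eq_zero (fun l _ => ?_)
      rw [if_neg]
      rintro rfl
      exact h (Finset.mem_image_of_mem _ (Finset.mem_univ _))
  have h1 : ∀ j ∈ range (2 ^ (s + 1)),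
      (if y + ((n' * j : ℕ) : ZMod n) ∈ univ.image a then 1 else 0)
            * ψ ((n' * j : ℕ) : ZMod n)
      = ∑ l, if a l - y = ((n' * j : ℕ) : ZMod n) then ψ (a l - y) else 0 := by
    intro j _
    rw [hind, Finset.sum_mul]
    refine Finset.sum_congr rfl (fun l _ => ?_)
    by_cases h : a l - y = ((n' * j : ℕ) : ZMod n)
    · rw [if_pos h, if_pos (by rw [← h]; abel), one_mul, h]
    · rw [if_neg h, if_neg, zero_mul]
      intro h'
      apply h
      rw [h']; abel
  rw [Finset.sum_congr rfl h1, Finset.sum_comm]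
  refine Finset.sum_congr rfl (fun l _ => ?_)
  by_cases h : (2 ^ (s + 1)) • (a l - y) = 0
  · rw [if_pos h]
    obtain ⟨j0, hj0, hz⟩ := kill_iff s n' hn' (a l - y) h
    rw [Finset.sum_eq_single j0]
    · rw [if_pos hz]
    · intro j hj hne
      rw [if_neg]
      intro h'
      apply hne
      rw [hz] at h'
      have h3 : (n' * j0) % n = (n' * j) % n := (ZMod.natCast_eq_natCast_iff' _ _ _).1 h'
      have hj' := Finset.mem_range.1 hj
      have lt : ∀ t, t < 2 ^ (s + 1) → n' * t < n := by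
        intro t ht
        rw [hn', mul_comm (2 ^ (s + 1)) n']
        exact Nat.mul_lt_mul_of_pos_left ht hn'0
      rw [Nat.mod_eq_of_lt (lt _ hj0), Nat.mod_eq_of_lt (lt _ hj')] at h3
      exact (Nat.eq_of_mul_eq_mul_left hn'0 h3).symm
    · intro h'
      exact absurd (Finset.mem_range.2 hj0) h'
  · rw [if_neg h]
    symm
    refine Finset.sum_eq_zero (fun j _ => ?_)
    rw [if_neg]
    intro h'
    apply h
    rw [h', ← Nat.cast_smul_eq_nsmul (ZMod n), smul_eq_mul, ← Nat.cast_mul]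
    rw [ZMod.natCast_eq_zero_iff, hn']
    exact ⟨j, by ring⟩

include hψ in
/-- **Periodicity lemma.** -/
theorem periodic_of_odd_es (hu2 : ¬ IsUnit (2 : R)) (h20 : (2 : R) ≠ 0) {k : ℕ} (hn : Even n) (a : Fin k → ZMod n) (ha : Function.Injective a)
    (h : ∀ j, Odd j → (2 : R) ∣ es (fun i => ψ (a i)) j) :
    ∀ x ∈ univ.image a, x + ((n / 2 : ℕ) : ZMod n) ∈ univ.image a := by
  classical
  intro y hy
  have hn0 : 0 < n := Nat.pos_of_ne_zero (NeZero.ne n)
  obtain ⟨s', n', hodd, hn'⟩ := Nat.exists_eq_two_pow_mul_odd (NeZero.ne n)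
  obtain ⟨s, rfl⟩ : ∃ s, s' = s + 1 := by
    rcases s' with _ | s
    · exfalso
      rw [pow_zero, one_mul] at hn'
      rw [hn'] at hn
      exact (Nat.not_even_iff_odd.2 hodd) hn
    · exact ⟨s, rfl⟩
  have hhalf : n / 2 = n' * 2 ^ s := by
    rw [hn', pow_succ]
    have : 2 ^ s * 2 * n' = 2 * (n' * 2 ^ s) := by ring
    rw [this, Nat.mul_div_cancel_left _ (by norm_num)]
  have hp := SNC.two_dvd_psum (fun i => ψ (a i)) h
  have h1 := two_dvd_coset ψ hψ s n' hn' hodd a hp y
  rw [coset_sum_eq ψ s n' hn' a ha y] at h1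
  set θ : R := ψ ((n' : ℕ) : ZMod n) with hθ
  have hθpow : ∀ j : ℕ, ψ ((n' * j : ℕ) : ZMod n) = θ ^ j := by
    intro j
    rw [hθ, ← psi_nsmul]
    congr 1
    rw [nsmul_eq_mul]
    push_cast
    ring
  have hθN : θ ^ (2 ^ s) = -1 := by
    rw [← hθpow, ← hhalf, psi_half ψ hψ hn]
  set ind : ZMod n → ℤ := fun x => if x ∈ univ.image a then 1 else 0 with hind
  have hindc : ∀ x : ZMod n, (if x ∈ univ.image a then (1 : R) else 0) = ((ind x : ℤ) : R) := by
    intro x
    simp only [hind]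
    split_ifs <;> simp
  set c : ℤ[X] := ∑ i ∈ range (2 ^ s), C (ind (y + ((n' * i : ℕ) : ZMod n))
    - ind (y + ((n' * (2 ^ s + i) : ℕ) : ZMod n))) * X ^ i with hc
  have hev : aeval θ c = ∑ j ∈ range (2 ^ (s + 1)),
          (if y + ((n' * j : ℕ) : ZMod n) ∈ univ.image a then 1 else 0)
            * ψ ((n' * j : ℕ) : ZMod n) := by
    have e : 2 ^ (s + 1) = 2 ^ s + 2 ^ s := by rw [pow_succ]; ring
    rw [e, Finset.sum_range_add, ← Finset.sum_add_distrib, hc, map_sum]
    refine Finset.sum_congr rfl (fun i _ => ?_)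
    rw [map_mul, map_pow, aeval_X, hindc, hindc, hθpow, hθpow, pow_add, hθN]
    have : aeval θ (C (ind (y + ((n' * i : ℕ) : ZMod n))
        - ind (y + ((n' * (2 ^ s + i) : ℕ) : ZMod n))))
      = (((ind (y + ((n' * i : ℕ) : ZMod n)) : ℤ) : R)
        - ((ind (y + ((n' * (2 ^ s + i) : ℕ) : ZMod n)) : ℤ) : R)) := by
      rw [aeval_C]
      simp
    rw [this]
    ring
  have hdeg : c.natDegree < 2 ^ s := by
    have h2 : c.natDegree ≤ 2 ^ s - 1 := by
      rw [hc]
      refine Polynomial.natDegree_sum_le_of_forall_le _ _ (fun i hi => ?_)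
      refine (Polynomial.natDegree_C_mul_X_pow_le _ _).trans ?_
      have := Finset.mem_range.1 hi
      omega
    have : 0 < 2 ^ s := by positivity
    omega
  have h3 := even_coeff hu2 h20 s θ hθN c hdeg (by rw [hev]; exact h1)
  have h4 : c.coeff 0 = ind y - ind (y + ((n / 2 : ℕ) : ZMod n)) := by
    rw [hc, Polynomial.finsetSum_coeff, Finset.sum_eq_single 0]
    · rw [Polynomial.coeff_C_mul, Polynomial.coeff_X_pow, if_pos rfl, mul_one]
      rw [Nat.mul_zero, Nat.cast_zero, add_zero, add_zero, ← hhalf]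
    · intro i _ hi
      rw [Polynomial.coeff_C_mul, Polynomial.coeff_X_pow, if_neg (Ne.symm hi), mul_zero]
    · intro h'
      exact absurd (Finset.mem_range.2 (by positivity)) h'
  have h5 : ((c.coeff 0 : ℤ) : ZMod 2) = 0 := by
    have := congrArg (fun p => p.coeff 0) h3
    simpa [Polynomial.coeff_map] using this
  rw [h4] at h5
  by_contra hcon
  have i1 : ind y = 1 := by simp only [hind]; rw [if_pos hy]
  have i2 : ind (y + ((n / 2 : ℕ) : ZMod n)) = 0 := by simp only [hind]; rw [if_neg hcon]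
  rw [i1, i2] at h5
  simp at h5

include hψ in
/-- If the odd elementary symmetric functions of both sets are divisible by 2, the sets are
periodic and the periodic case applies. -/
theorem tr_or_cosPair_of_odd_es (hu2 : ¬ IsUnit (2 : R)) (h20 : (2 : R) ≠ 0) {k : ℕ}
    (hn : Even n) {A B : Finset (ZMod n)}
    (a b : Fin k → ZMod n) (ha : Function.Injective a) (hb : Function.Injective b)
    (hA : univ.image a = A) (hB : univ.image b = B)
    (h1 : ∀ j, Odd j → (2 : R) ∣ es (fun i => ψ (a i)) j)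
    (h2 : ∀ j, Odd j → (2 : R) ∣ es (fun i => ψ (b i)) j) : Tr A B ∨ CosPair A B := by
  have c1 : A.card = k := by
    rw [← hA, Finset.card_image_of_injective _ ha, Finset.card_univ, Fintype.card_fin]
  have c2 : B.card = k := by
    rw [← hB, Finset.card_image_of_injective _ hb, Finset.card_univ, Fintype.card_fin]
  refine SN.perP (Nat.pos_of_ne_zero (NeZero.ne n)) hn A B (c1.trans c2.symm) ?_ ?_
  · rw [← hA]
    exact periodic_of_odd_es ψ hψ hu2 h20 hn a ha h1
  · rw [← hB]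
    exact periodic_of_odd_es ψ hψ hu2 h20 hn b hb h2

end Fourier

end Pool.Agent.Helper73.SNC.Gen
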